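import Pool.Agent.Helper68.ST2.Rel
import Pool.Agent.Helper47.CA.Bk

/-! Four windows of a planar base: the corner over nested labels, the algebraic part of its facts. -/

set_option autoImplicit false

namespace Pool.Agent.Helper68.ST2

open Finset Filter Topology Pool.Agent.Helper69.RK Pool.Agent.Helper40.EL Pool.Agent.Helper31.EC
open Pool.Agent.Helper31.EC.Sp Pool.Agent.Helper60.CS Pool.Agent.Helper47.T4 Pool.Agent.Helper47.CA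
open Pool.Agent.Helper40.NSK Pool.Agent.Helper99.LF
open Pool.Agent.Helper97.SL (cdl ev_cdl cdl_dg)

noncomputable section

/-- FOUR WINDOWS `c, c + e, c + e s, c + e s + e` with sheets of depths `r0, r1, r2, r3` whose slopes are close -/
structure Fw (Q : Sp) where
  L : Ln Q
  ξ : TR Q
  u : ℝ
  V0 : ∀ k, Setoid (Q.F k).Ω
  V1 : ∀ k, Setoid (Q.F k).Ω
  V2 : ∀ k, Setoid (Q.F k).Ω
  V3 : ∀ k, Setoid (Q.F k).Ω
  n1 : ∀ k, V1 k ≤ V0 k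
  n2 : ∀ k, V2 k ≤ V0 k
  n3 : ∀ k, V3 k ≤ V2 k
  c : ℝ
  e : ℝ
  s : ℝ
  r0 : ℝ
  r1 : ℝ
  r2 : ℝ
  r3 : ℝ
  he : 0 < e
  hs : 0 ≤ s
  W0 : Wn Q L ξ u V0 c r0
  W1 : Wn Q L ξ u V1 (c + e) r1
  W2 : Wn Q L ξ u V2 (c + e * s) r2
  W3 : Wn Q L ξ u V3 (c + e * s + e) r3
  σ : ℝ
  v : ℝ
  hσ : 0 ≤ σ
  hv : 0 ≤ v
  hvs : v ≤ s
  h1 : σ + v ≤ 1
  q1 : r0 - c ≤ r1 - (c + e)
  q2 : r0 - c ≤ r2 - (c + e * s)
  q3 : r0 - c ≤ r3 - (c + e * s + e)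
  z1 : e * (σ + v) ≤ r1 - r0
  z2 : e * σ ≤ r2 - r0
  z3 : e * (σ + v) ≤ r3 - r0
  Kg : ℕ → ℝ
  hKg : Q.Sub Kg
  g1 : Sm Kg (r0 - c - u) (W1.γ - W0.γ)
  g2 : Sm Kg (r0 - c - u) (W2.γ - W0.γ)
  g3 : Sm Kg (r0 - c - u) (W3.γ - W0.γ)
  /-- the levels are at most `1` -/
  lv : r0 + e * (σ + v) ≤ 1
  lu : c + u + e * s + e ≤ 1

namespace Fw

variable {Q : Sp} (F : Fw Q)

theorem hes : 0 ≤ F.e * F.s := mul_nonneg F.he.le F.hs

theorem c1 : F.c ≤ F.c + F.e := by linarith [F.he]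
theorem c2 : F.c ≤ F.c + F.e * F.s := by linarith [F.hes]
theorem c3 : F.c ≤ F.c + F.e * F.s + F.e := by linarith [F.hes, F.he]
theorem c23 : F.c + F.e * F.s ≤ F.c + F.e * F.s + F.e := by linarith [F.he]

theorem n03 : ∀ k, F.V3 k ≤ F.V0 k := fun k => (F.n3 k).trans (F.n2 k)

theorem tτ' : Typ (S := Q) (fun k ω => (F.W0.T).1 k ω = (Wn.T0 F.W0 F.W2).1 k ω + Q.dl (F.e * F.s) k * (F.W2.T).1 k ω) := by
  obtain ⟨E, hE, hh⟩ := Wn.T_rel F.W0 F.W2 F.c2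
  refine Typ.mono (S := Q) (E := E) hE ?_
  filter_upwards [hh] with k hk ω hω h
  have h2 := hk ω hω h
  rw [TR.ev_add, TR.ev_mul, ev_cdl] at h2
  have e2 : F.c + F.e * F.s - F.c = F.e * F.s := by ring
  rw [e2] at h2
  exact h2

theorem tτ : Typ (S := Q) (fun k ω => |(F.W0.T).1 k ω - (Wn.T0 F.W0 F.W2).1 k ω| ≤ F.W2.K k * Q.dl (F.e * F.s) k) := by
  have h1 : Sm F.W2.K 0 F.W2.T := dq_sm _ _
  refine Typ.mono (S := Q) (E := fun k ω => (F.W0.T).1 k ω = (Wn.T0 F.W0 F.W2).1 k ω +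
    Q.dl (F.e * F.s) k * (F.W2.T).1 k ω ∧ |TR.ev F.W2.T k ω| ≤ F.W2.K k * Q.dl 0 k) (F.tτ'.and h1)
    (Eventually.of_forall fun k ω hω h => ?_)
  have h2 := h.1
  have e1 : (F.W0.T).1 k ω - (Wn.T0 F.W0 F.W2).1 k ω = Q.dl (F.e * F.s) k * TR.ev F.W2.T k ω := by
    rw [h2]
    show _ = Q.dl (F.e * F.s) k * (F.W2.T).1 k ω
    ring
  rw [e1, abs_mul, abs_of_pos (Q.dl_pos _ k), mul_comm]
  refine mul_le_mul_of_nonneg_right ?_ (Q.dl_pos _ k).le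
  have h3 := h.2
  rwa [Q.dl_zero, mul_one] at h3

/-- THE CORNER of four windows -/
def D : ND Q 1 1 where
  Z := F.V0
  Z' := F.V2
  hZ := fun k _ _ _ _ _ h => F.n2 k h
  e := F.e
  he := F.he
  s := F.s
  σ := F.σ
  v := F.v
  hs := F.hs
  hσ := F.hσ
  hv := F.hv
  hvs := F.hvs
  h1 := F.h1
  τ := F.W0.T
  τ0 := Wn.T0 F.W0 F.W2
  hτ0 := Wn.T0_mz F.W0 F.W2 F.n2
  K := F.W2.K
  hK := F.W2.hK
  hτ := F.tτ
  g := ![F.W0.G0, F.W0.G1]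
  ζ := F.W0.Z
  hζ := by
    have e1 : (∑ i : Fin 2, (![F.W0.G0, F.W0.G1] : Fin 2 → TR Q) i * F.W0.T ^ (i : ℕ)) = F.W0.Z := by
      rw [Fin.sum_univ_two]
      show F.W0.G0 * F.W0.T ^ 0 + F.W0.G1 * F.W0.T ^ 1 = F.W0.Z
      rw [pow_zero, pow_one, mul_one]
      rfl
    rw [e1]
    exact TR.Te.refl _
  a := fun _ => trc F.V2 F.e F.he F.W2.B
  x := fun _ => trc F.V2 F.e F.he F.W2.X

/-! ### informations -/

/-- the base line of the window `c` -/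
def L0 : Q.L := TR.dg F.W0.B F.e ⊔ TR.dg F.W0.X F.e
/-- the base point of the window `c` -/
def M0 : Q.L := TR.dg F.W0.T F.e ⊔ TR.dg F.W0.Y F.e
/-- the whole base point -/
def M : Q.L := TR.dg F.L.t 1 ⊔ TR.dg F.L.P 1
/-- the base line of the corner -/
def L2 : Q.L := TR.dg F.W2.B F.e ⊔ TR.dg F.W2.X F.e
/-- the direction of the corner -/
def X2 : Q.L := TR.dg F.W2.X F.e
/-- the base coordinate of the corner -/
def Y2 : Q.L := TR.dg F.W2.Y F.e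
/-- the whole line -/
def Lx : Q.L := TR.dg F.L.a 1 ⊔ TR.dg F.L.x 1 ⊔ (TR.dg F.L.b 1 ⊔ TR.dg F.L.y 1)

theorem fin1 {ι : Type*} [Fintype ι] [Unique ι] {S : Sp} (f : ι → QS S) (r : ℝ) : QS.vd f r = QS.dg (f default) r := by
  apply le_antisymm
  · rw [QS.vd_le]
    intro i
    rw [Subsingleton.elim i default]
  · exact QS.dg_le_vd f r default

theorem rX : (fc F.D.cd.tr).iX = chgL F.V2 F.e F.he F.X2 := by
  unfold FC.iX
  rw [fin1]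
  show QS.dg (QS.mk (trc F.V2 F.e F.he F.W2.X)) 1 = _
  rw [QS.dg_mk _ le_rfl, trc_dg, mul_one]
  rfl

theorem rL : (fc F.D.cd.tr).iL = chgL F.V2 F.e F.he F.L2 := by
  unfold FC.iL
  rw [fin1, fin1]
  show QS.dg (QS.mk (trc F.V2 F.e F.he F.W2.B)) 1 ⊔ QS.dg (QS.mk (trc F.V2 F.e F.he F.W2.X)) 1 = _
  rw [QS.dg_mk _ le_rfl, QS.dg_mk _ le_rfl, trc_dg, trc_dg, mul_one, ← chgL_sup]
  rfl

/-- the time of the corner -/
theorem t_te : TR.Te F.D.t (trc F.V2 F.e F.he F.W2.T) := by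
  have h1 := zo_typ F.V2 F.e F.he (f := F.W0.T) (g := (Wn.T0 F.W0 F.W2).1) F.W2.hK F.tτ
  refine ⟨_, typ_chg F.V2 F.e F.he (Typ.and (S := Q) h1 F.tτ'), Eventually.of_forall fun k ω hω h => ?_⟩
  have h2 := h.1
  have h3 := h.2
  rw [h3] at h2
  exact (mul_left_cancel₀ (Q.dl_pos _ k).ne' (add_left_cancel h2)).symm

/-- the functions of the corner -/
def cT : TR F.D.U := trc F.V2 F.e F.he F.W2.T
def cB : TR F.D.U := trc F.V2 F.e F.he F.W2.B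
def cX : TR F.D.U := trc F.V2 F.e F.he F.W2.X
def cY : TR F.D.U := trc F.V2 F.e F.he F.W2.Y

theorem y_te : TR.Te (F.cB + F.D.t * F.cX) F.cY := (TR.Te.refl _).add (TR.Te.mul F.t_te (TR.Te.refl _))

theorem rY : QS.vd (fc F.D.cd.tr).y 1 = chgL F.V2 F.e F.he F.Y2 := by
  rw [fin1]
  have h2 : QS.dg (QS.mk (F.cB + F.D.t * F.cX)) 1 = chgL F.V2 F.e F.he F.Y2 := by
    rw [QS.dg_mk _ le_rfl, F.y_te.dg_eq]
    have h3 := trc_dg F.V2 F.e F.he F.W2.Y 1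
    rw [mul_one] at h3
    exact h3
  exact h2

/-! ### the algebraic facts -/

section facts

variable (ε : ℝ) (hε : 0 < ε)

theorem T2_eq : T2 F.D = TR.dg F.W0.T (F.e * (F.s + 1)) := rfl

/-- the time of the corner over `V2` -/
theorem T2_up : chgL F.V2 ε hε (T2 F.D) = chgL F.V2 ε hε (TR.dg F.W2.T F.e) := by
  rw [T2_eq, Wn.T_chg F.W0 F.W2 F.c2 F.n2]
  congr 2
  ring

theorem T2_t : chgL F.V2 ε hε (T2 F.D) = chgL F.V2 ε hε (TR.dg F.L.t (F.c + F.e * F.s + F.e)) := by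
  rw [T2_up, F.W2.T_up fun _ => le_rfl]

/-- the base line of the window `c` is known from the line of the corner -/
theorem a_hL : chgL F.V2 ε hε F.L0 ≤ chgL F.V2 ε hε F.L2 := by
  unfold L0 L2
  have hx : chgL F.V2 ε hε (TR.dg F.W2.X F.e) ≤ chgL F.V2 ε hε (TR.dg F.W2.B F.e ⊔ TR.dg F.W2.X F.e) :=
    chgL_mono _ _ _ le_sup_right
  rw [chgL_sup F.V2 ε hε (TR.dg F.W0.B F.e)]
  refine sup_le (Wn.B_chg F.W0 F.W2 F.c2 F.n2 ε hε F.e ?_ hx) ?_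
  · refine chgL_mono _ _ _ ((TR.dg_mono _ ?_).trans le_sup_left)
    linarith [F.c2]
  · rw [Wn.X_chg F.W0 F.W2 F.c2]
    exact hx

/-- the base point of the window `c` is known from the base point of the corner -/
theorem a_hM : chgL F.V2 ε hε F.M0 ≤ chgL F.V2 ε hε (F.Y2 ⊔ T2 F.D) := by
  unfold M0 Y2
  rw [chgL_sup F.V2 ε hε (TR.dg F.W0.T F.e), chgL_sup F.V2 ε hε (TR.dg F.W2.Y F.e)]
  refine sup_le ?_ ?_
  · refine le_sup_of_le_right (chgL_mono _ _ _ (TR.dg_mono _ ?_))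
    show F.e ≤ F.e * (F.s + 1)
    linarith [F.hes]
  · rw [Wn.Y_chg F.W0 F.W2 F.c2 F.n2]
    refine le_sup_of_le_left (chgL_mono _ _ _ (TR.dg_mono _ ?_))
    linarith [F.c2]

theorem a_hLM : chgL F.V0 ε hε F.M0 ≤ chgL F.V0 ε hε (F.L0 ⊔ TR.dg F.D.τ F.D.e) := by
  unfold M0 L0
  apply chgL_mono
  refine sup_le le_sup_right ?_
  have h1 : F.W0.Y = F.W0.B + F.W0.T * F.W0.X := rfl
  rw [h1]
  refine (TR.add_dg_le _ _ _).trans (sup_le (le_sup_left.trans le_sup_left) ?_)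
  refine (TR.mul_dg_le _ _ _).trans (sup_le le_sup_right (le_sup_right.trans le_sup_left))

/-- the whole base point knows the base point of the window -/
theorem a_T {V' : ∀ k, Setoid (Q.F k).Ω} (hV : ∀ k, V' k ≤ F.V0 k) {r : ℝ} (hr : F.c + r ≤ 1) :
    chgL V' ε hε (TR.dg F.W0.T r) ≤ chgL V' ε hε F.M := by
  rw [F.W0.T_up hV]
  exact chgL_mono _ _ _ ((TR.dg_mono _ hr).trans le_sup_left)

theorem a_Y {V' : ∀ k, Setoid (Q.F k).Ω} (hV : ∀ k, V' k ≤ F.V0 k) {r : ℝ} (hr : F.c + F.u + r ≤ 1) :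
    chgL V' ε hε (TR.dg F.W0.Y r) ≤ chgL V' ε hε F.M := by
  have h0 : chgL V' ε hε (TR.dg F.L.t (F.c + F.u + r)) ≤ chgL V' ε hε F.M :=
    chgL_mono _ _ _ ((TR.dg_mono _ hr).trans le_sup_left)
  have h1 := F.W0.Y_up hV ε hε r h0
  have h2 : chgL V' ε hε (TR.dg F.L.P (F.c + F.u + r)) ≤ chgL V' ε hε F.M :=
    chgL_mono _ _ _ ((TR.dg_mono _ hr).trans le_sup_right)
  calc chgL V' ε hε (TR.dg F.W0.Y r) ≤ chgL V' ε hε (TR.dg F.W0.Y r) ⊔ chgL V' ε hε F.M := le_sup_left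
    _ = _ := h1
    _ ≤ _ := sup_le h2 le_rfl

theorem a_hM0 : chgL F.V0 ε hε F.M0 ≤ chgL F.V0 ε hε F.M := by
  unfold M0
  rw [chgL_sup]
  have h1 := F.hes
  have h2 := F.W0.hu
  exact sup_le (F.a_T ε hε (fun _ => le_rfl) (by linarith [F.lu])) (F.a_Y ε hε (fun _ => le_rfl) (by linarith [F.lu]))

theorem lx_a {V' : ∀ k, Setoid (Q.F k).Ω} {r : ℝ} (hr : r ≤ 1) : chgL V' ε hε (TR.dg F.L.a r) ≤ chgL V' ε hε F.Lx :=
  chgL_mono _ _ _ (((TR.dg_mono _ hr).trans le_sup_left).trans le_sup_left)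
theorem lx_x {V' : ∀ k, Setoid (Q.F k).Ω} {r : ℝ} (hr : r ≤ 1) : chgL V' ε hε (TR.dg F.L.x r) ≤ chgL V' ε hε F.Lx :=
  chgL_mono _ _ _ (((TR.dg_mono _ hr).trans le_sup_right).trans le_sup_left)
theorem lx_b {V' : ∀ k, Setoid (Q.F k).Ω} {r : ℝ} (hr : r ≤ 1) : chgL V' ε hε (TR.dg F.L.b r) ≤ chgL V' ε hε F.Lx :=
  chgL_mono _ _ _ (((TR.dg_mono _ hr).trans le_sup_left).trans le_sup_right)
theorem lx_y {V' : ∀ k, Setoid (Q.F k).Ω} {r : ℝ} (hr : r ≤ 1) : chgL V' ε hε (TR.dg F.L.y r) ≤ chgL V' ε hε F.Lx :=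
  chgL_mono _ _ _ (((TR.dg_mono _ hr).trans le_sup_right).trans le_sup_right)

theorem a_l0 : chgL F.V0 ε hε F.L0 ≤ chgL F.V0 ε hε F.Lx := by
  unfold L0
  have h1 := F.hes
  have h2 := F.W0.hc
  rw [chgL_sup F.V0 ε hε (TR.dg F.W0.B F.e)]
  refine sup_le ((F.W0.B_up (fun _ => le_rfl) ε hε F.e).trans (sup_le ?_ ?_)) ?_
  · exact F.lx_a ε hε (by linarith [F.lu])
  · exact F.lx_x ε hε (by linarith [F.lu])
  · rw [F.W0.X_up fun _ => le_rfl]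
    exact F.lx_x ε hε (by linarith [F.lu])

theorem a_l2 : chgL F.V2 ε hε F.L2 ≤ chgL F.V2 ε hε F.Lx := by
  unfold L2
  have h1 := F.hes
  have h2 := F.W0.hc
  rw [chgL_sup F.V2 ε hε (TR.dg F.W2.B F.e)]
  refine sup_le ((F.W2.B_up (fun _ => le_rfl) ε hε F.e).trans (sup_le ?_ ?_)) ?_
  · exact F.lx_a ε hε (by linarith [F.lu])
  · exact F.lx_x ε hε (by linarith [F.lu])
  · rw [F.W2.X_up fun _ => le_rfl]
    exact F.lx_x ε hε (by linarith [F.lu])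

theorem a_g {V' : ∀ k, Setoid (Q.F k).Ω} (hV : ∀ k, V' k ≤ F.V0 k) :
    chgL V' ε hε (gd F.D.g (F.e * (F.σ + F.v))) ≤ chgL V' ε hε F.Lx := by
  have h2 := F.W0.hc
  have e1 : gd F.D.g (F.e * (F.σ + F.v)) =
      TR.dg F.W0.G0 (F.e * (F.σ + F.v)) ⊔ TR.dg F.W0.G1 (F.e * (F.σ + F.v)) := by
    apply le_antisymm
    · rw [gd_le]
      intro i
      fin_cases i
      · exact le_sup_left
      · exact le_sup_right
    · refine sup_le ?_ ?_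
      · exact (gd_le (g := F.D.g)).mp le_rfl 0
      · exact (gd_le (g := F.D.g)).mp le_rfl 1
  rw [e1, chgL_sup]
  have l1 := F.lv
  refine sup_le ?_ ?_
  · exact F.W0.G0_up hV ε hε _ (F.lx_a ε hε l1) (F.lx_x ε hε l1) (F.lx_b ε hε l1) (F.lx_y ε hε l1)
  · exact F.W0.G1_up hV ε hε _ (F.lx_x ε hε (by linarith)) (F.lx_y ε hε (by linarith))

/-- everything is known over `V3` -/
theorem a_k3 : chgL F.V3 ε hε (F.Y2 ⊔ T2 F.D) = ⊥ := by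
  apply le_bot_iff.mp
  unfold Y2
  rw [chgL_sup F.V3 ε hε (TR.dg F.W2.Y F.e), T2_eq, Wn.Y_chg F.W2 F.W3 F.c23 F.n3, Wn.T_chg F.W0 F.W3 F.c3 F.n03]
  refine sup_le ?_ ?_
  · rw [dg_nonpos' _ (by linarith), chgL_bot]
  · rw [dg_nonpos' _ (by linarith), chgL_bot]

theorem a_k1 : chgL F.V1 ε hε F.M0 = ⊥ := by
  apply le_bot_iff.mp
  unfold M0
  rw [chgL_sup F.V1 ε hε (TR.dg F.W0.T F.e), Wn.Y_chg F.W0 F.W1 F.c1 F.n1, Wn.T_chg F.W0 F.W1 F.c1 F.n1]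
  refine sup_le ?_ ?_
  · rw [dg_nonpos' _ (by linarith), chgL_bot]
  · rw [dg_nonpos' _ (by linarith), chgL_bot]

theorem σv_le : F.e * (F.σ + F.v) ≤ F.e := mul_le_of_le_one_right F.he.le F.h1

theorem a_z1 : chgL F.V1 ε hε (TR.dg F.D.ζ (F.e * (F.σ + F.v))) = ⊥ :=
  Wn.Z_bot F.W0 F.W1 F.Kg F.hKg F.c1 F.q1 F.g1 F.n1 ε hε F.z1 (by linarith [F.σv_le])

theorem a_z3 : chgL F.V3 ε hε (TR.dg F.D.ζ (F.e * (F.σ + F.v))) = ⊥ :=
  Wn.Z_bot F.W0 F.W3 F.Kg F.hKg F.c3 F.q3 F.g3 F.n03 ε hε F.z3 (by linarith [F.σv_le, F.hes])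

/-- HULL -/
theorem a_hu : chgL F.V2 ε hε (TR.dg F.D.ζ (F.e * F.σ)) ≤ chgL F.V2 ε hε F.M := by
  have h1 := F.hes
  have h2 := F.W0.hu
  have h3 := F.W0.hc
  have h4 := F.σv_le
  have h5 : F.e * F.σ ≤ F.e := by nlinarith [F.he, F.hv]
  apply Wn.Z_chg F.W0 F.W2 F.Kg F.hKg F.c2 F.q2 F.g2 F.n2 ε hε F.z2
  · rw [F.W2.T_up fun _ => le_rfl]
    refine chgL_mono _ _ _ ((TR.dg_mono _ ?_).trans le_sup_left)
    linarith [F.lu]
  · have h0 : chgL F.V2 ε hε (TR.dg F.L.t (F.c + F.e * F.s + F.u + (F.e * F.σ - (F.c + F.e * F.s - F.c)))) ≤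
        chgL F.V2 ε hε F.M := chgL_mono _ _ _ ((TR.dg_mono _ (by linarith [F.lu])).trans le_sup_left)
    have h6 := F.W2.Y_up (fun _ => le_rfl) ε hε (F.e * F.σ - (F.c + F.e * F.s - F.c)) h0
    have h7 : chgL F.V2 ε hε (TR.dg F.L.P (F.c + F.e * F.s + F.u + (F.e * F.σ - (F.c + F.e * F.s - F.c)))) ≤
        chgL F.V2 ε hε F.M := chgL_mono _ _ _ ((TR.dg_mono _ (by linarith [F.lu])).trans le_sup_right)
    calc _ ≤ chgL F.V2 ε hε (TR.dg F.W2.Y (F.e * F.σ - (F.c + F.e * F.s - F.c))) ⊔ chgL F.V2 ε hε F.M := le_sup_left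
      _ = _ := h6
      _ ≤ _ := sup_le h7 le_rfl

end facts

end Fw

end

end Pool.Agent.Helper68.ST2
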