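import Pool.Agent.Helper68.ST2.Tl

/-! Windows of a planar base with a sheet above it: the rescaled functions, on the space itself. -/

set_option autoImplicit false

namespace Pool.Agent.Helper68.ST2

open Finset Filter Topology Pool.Agent.Helper69.RK Pool.Agent.Helper40.EL Pool.Agent.Helper31.EC
open Pool.Agent.Helper31.EC.Sp Pool.Agent.Helper60.CS
open Pool.Agent.Helper97.SL (cdl ev_cdl cdl_dg)

noncomputable section

variable {Q : Sp}

theorem tr_ext {f g : TR Q} (h : ∀ k ω, TR.ev f k ω = TR.ev g k ω) : f = g :=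
  Subtype.ext (funext fun k => funext fun ω => h k ω)

/-- the height `t`, the base line `a + t x`, the top line `b + t y` -/
structure Ln (Q : Sp) where
  t : TR Q
  a : TR Q
  x : TR Q
  b : TR Q
  y : TR Q

/-- the point of the base -/
def Ln.P (L : Ln Q) : TR Q := L.a + L.t * L.x

/-- the top coordinate -/
def Ln.R (L : Ln Q) : TR Q := L.b + L.t * L.y

/-- functions of a partition (and of the base) -/
def Mz (V : ∀ k, Setoid (Q.F k).Ω) (f : TR Q) : Prop :=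
  ∀ᶠ k in UF, ∀ ω ω', (Q.F k).μ ω ≠ 0 → (Q.F k).μ ω' ≠ 0 → (V k ⊓ (Q.F k).Z) ω ω' → TR.ev f k ω = TR.ev f k ω'

namespace Mz

variable {V V' : ∀ k, Setoid (Q.F k).Ω} {f g : TR Q}

theorem bm (h : Mz V f) (e : ℝ) (he : 0 < e) : BM (trc V e he f) := h

theorem add (hf : Mz V f) (hg : Mz V g) : Mz V (f + g) := by
  filter_upwards [hf, hg] with k a b ω ω' h h' z
  rw [TR.ev_add, TR.ev_add, a ω ω' h h' z, b ω ω' h h' z]

theorem mul (hf : Mz V f) (hg : Mz V g) : Mz V (f * g) := by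
  filter_upwards [hf, hg] with k a b ω ω' h h' z
  rw [TR.ev_mul, TR.ev_mul, a ω ω' h h' z, b ω ω' h h' z]

theorem neg (hf : Mz V f) : Mz V (-f) := by
  filter_upwards [hf] with k a ω ω' h h' z
  rw [TR.ev_neg, TR.ev_neg, a ω ω' h h' z]

theorem sub (hf : Mz V f) (hg : Mz V g) : Mz V (f - g) := by
  filter_upwards [hf, hg] with k a b ω ω' h h' z
  rw [TR.ev_sub, TR.ev_sub, a ω ω' h h' z, b ω ω' h h' z]

theorem mono (h : Mz V f) (hV : ∀ k, V' k ≤ V k) : Mz V' f := by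
  filter_upwards [h] with k a ω ω' h h' z
  exact a ω ω' h h' ⟨hV k z.1, z.2⟩

theorem cdl (r : ℝ) (hr : 0 ≤ r) : Mz V (cdl (S := Q) r hr) := Eventually.of_forall fun _ _ _ _ _ _ => rfl

/-- the digits are known to the label -/
theorem bot (h : Mz V f) (e : ℝ) (he : 0 < e) (r : ℝ) : chgL V e he (TR.dg f r) = ⊥ := chgL_BM V e he (h.bm e he) r

theorem le (h : Mz V f) {e : ℝ} {he : 0 < e} {r : ℝ} {A : (Q.chg V e he).L} : chgL V e he (TR.dg f r) ≤ A := by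
  rw [h.bot e he r]
  exact bot_le

/-- differences with functions of the label -/
theorem sub_dg (hg : Mz V g) (e : ℝ) (he : 0 < e) (s : ℝ) :
    chgL V e he (TR.dg (f - g) s) = chgL V e he (TR.dg f s) := by
  apply le_antisymm
  · exact chgL_sub_le V e he le_rfl hg.le
  · have h2 := chgL_add_le V e he (x := chgL V e he (TR.dg (f - g) s)) (f := f - g) (g := g) (r := s) le_rfl hg.le
    rwa [sub_add_cancel f g] at h2

end Mz

/-- `|f| ≤ K 2 ^ (-r n)` on a typical event -/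
def Sm (K : ℕ → ℝ) (r : ℝ) (f : TR Q) : Prop :=
  Typ (S := Q) (fun k ω => |TR.ev f k ω| ≤ K k * Q.dl r k)

namespace Sm

theorem add {K K' : ℕ → ℝ} {r : ℝ} {f g : TR Q} (hf : Sm K r f) (hg : Sm K' r g) :
    Sm (fun k => K k + K' k) r (f + g) := by
  refine (hf.and hg).mono (Eventually.of_forall fun k ω _ h => ?_)
  rw [TR.ev_add, add_mul]
  exact (abs_add_le _ _).trans (add_le_add h.1 h.2)

theorem neg {K : ℕ → ℝ} {r : ℝ} {f : TR Q} (hf : Sm K r f) : Sm K r (-f) := by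
  refine hf.mono (Eventually.of_forall fun k ω _ h => ?_)
  rw [TR.ev_neg, abs_neg]
  exact h

theorem sub {K K' : ℕ → ℝ} {r : ℝ} {f g : TR Q} (hf : Sm K r f) (hg : Sm K' r g) :
    Sm (fun k => K k + K' k) r (f - g) := by
  rw [sub_eq_add_neg]
  exact hf.add hg.neg

theorem mul {K K' : ℕ → ℝ} (hK : Q.Sub K) {r s : ℝ} {f g : TR Q} (hf : Sm K r f) (hg : Sm K' s g) :
    Sm (fun k => K k * K' k) (r + s) (f * g) := by
  refine (hf.and hg).mono ?_
  filter_upwards [hK.1] with k hk ω _ h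
  rw [TR.ev_mul, abs_mul, dl_add]
  calc |TR.ev f k ω| * |TR.ev g k ω| ≤ (K k * Q.dl r k) * (K' k * Q.dl s k) :=
        mul_le_mul h.1 h.2 (abs_nonneg _) (mul_nonneg hk (Q.dl_pos r k).le)
    _ = _ := by ring

theorem mono {K K' : ℕ → ℝ} (hK : Q.Sub K) {r r' : ℝ} {f : TR Q} (hf : Sm K r f) (hr : r' ≤ r)
    (h : ∀ᶠ k in UF, K k ≤ K' k) : Sm K' r' f := by
  refine Typ.mono (E := fun k ω => |TR.ev f k ω| ≤ K k * Q.dl r k) hf ?_
  filter_upwards [h, hK.1] with k hk h0 ω _ h1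
  exact h1.trans (mul_le_mul hk (Q.dl_anti hr k) (Q.dl_pos _ k).le (h0.trans hk))

theorem anti {K : ℕ → ℝ} (hK : Q.Sub K) {r r' : ℝ} {f : TR Q} (hf : Sm K r f) (hr : r' ≤ r) : Sm K r' f :=
  hf.mono hK hr (Eventually.of_forall fun _ => le_rfl)

theorem congr {K : ℕ → ℝ} {r : ℝ} {f g : TR Q} (hf : Sm K r f) (h : TR.Te f g) : Sm K r g := by
  obtain ⟨E, hE, hh⟩ := h
  refine Typ.mono (E := fun k ω => |TR.ev f k ω| ≤ K k * Q.dl r k ∧ E k ω) (Typ.and hf hE) ?_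
  filter_upwards [hh] with k hk ω hω h1
  rw [← hk ω hω h1.2]
  exact h1.1

theorem tame (f : TR Q) : ∃ K : ℕ → ℝ, Q.Sub K ∧ Sm K 0 f := by
  obtain ⟨K, hK, h⟩ := f.2
  refine ⟨K, hK, Typ.mono (E := fun _ _ => True) Typ_true ?_⟩
  filter_upwards [h] with k hk ω hω _
  rw [dl_zero, mul_one]
  exact hk ω hω

theorem ag {K : ℕ → ℝ} (hK : Q.Sub K) {r : ℝ} {f : TR Q} (h : Sm K r f) : TR.Ag r f 0 :=
  Ag_iff_typ.mpr ⟨K, hK, h⟩

/-- small functions have no digits -/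
theorem dg {K : ℕ → ℝ} (hK : Q.Sub K) {r s : ℝ} {f : TR Q} (h : Sm K r f) (hs : s ≤ r) : TR.dg f s = ⊥ := by
  rw [(h.ag hK).dg_eq hs]
  exact TR.const_dg 0 (Eventually.of_forall fun _ _ _ => rfl) s

end Sm

theorem Te.sm {K : ℕ → ℝ} {r : ℝ} {f g : TR Q} (h : TR.Te f g) : Sm K r f ↔ Sm K r g :=
  ⟨fun hf => hf.congr h, fun hg => hg.congr h.symm⟩

open Classical in
/-- `f / 2 ^ (-r n)` (where it is at most `K`) -/
def dq (f : TR Q) (r : ℝ) (K : ℕ → ℝ) (hK : Q.Sub K) : TR Q :=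
  ⟨fun k ω => if |f.1 k ω| ≤ K k * Q.dl r k then f.1 k ω / Q.dl r k else 0, by
    refine ⟨K, hK, ?_⟩
    filter_upwards [hK.1] with k hk ω _
    split_ifs with h1
    · rw [abs_div, abs_of_pos (Q.dl_pos r k), div_le_iff₀ (Q.dl_pos r k)]
      exact h1
    · rw [abs_zero]; exact hk⟩

section dql

variable {f : TR Q} {r : ℝ} {K : ℕ → ℝ} (hK : Q.Sub K)

theorem dq_ev {k : ℕ} {ω : (Q.F k).Ω} (h : |TR.ev f k ω| ≤ K k * Q.dl r k) :
    TR.ev (dq f r K hK) k ω = TR.ev f k ω / Q.dl r k := by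
  classical
  have h' : |f.1 k ω| ≤ K k * Q.dl r k := h
  show (if |f.1 k ω| ≤ K k * Q.dl r k then f.1 k ω / Q.dl r k else 0) = _
  rw [if_pos h']
  rfl

theorem dq_typ (h : Sm K r f) :
    Typ (S := Q) (fun k ω => TR.ev f k ω = Q.dl r k * TR.ev (dq f r K hK) k ω) := by
  refine Typ.mono (E := fun k ω => |TR.ev f k ω| ≤ K k * Q.dl r k) h (Eventually.of_forall fun k ω _ q => ?_)
  rw [dq_ev hK q, mul_div_cancel₀ _ (Q.dl_pos r k).ne']

theorem dq_te (hr : 0 ≤ r) (h : Sm K r f) : TR.Te f (cdl r hr * dq f r K hK) :=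
  ⟨_, dq_typ hK h, Eventually.of_forall fun k ω _ q => by
    rw [TR.ev_mul, ev_cdl]
    exact q⟩

theorem dq_mz {V : ∀ k, Setoid (Q.F k).Ω} (h : Mz V f) : Mz V (dq f r K hK) := by
  classical
  filter_upwards [h] with k hk ω ω' a b z
  have h1 : f.1 k ω = f.1 k ω' := hk ω ω' a b z
  show (if |f.1 k ω| ≤ K k * Q.dl r k then f.1 k ω / Q.dl r k else 0) =
    (if |f.1 k ω'| ≤ K k * Q.dl r k then f.1 k ω' / Q.dl r k else 0)
  rw [h1]

theorem dq_sm (g : TR Q) : Sm K 0 (dq g r K hK) := by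
  classical
  refine Typ.mono (E := fun _ _ => True) Typ_true ?_
  filter_upwards [hK.1] with k hk ω _ _
  rw [dl_zero, mul_one]
  show |(if |g.1 k ω| ≤ K k * Q.dl r k then g.1 k ω / Q.dl r k else 0)| ≤ K k
  split_ifs with h1
  · rw [abs_div, abs_of_pos (Q.dl_pos r k), div_le_iff₀ (Q.dl_pos r k)]
    exact h1
  · rw [abs_zero]; exact hk

end dql

/-- digits of a rescaled function -/
theorem te_dg {f : TR Q} {r : ℝ} {hr : 0 ≤ r} {g : TR Q} (h : TR.Te f (cdl r hr * g)) (v : ℝ) :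
    TR.dg g v = TR.dg f (r + v) := by
  have h1 := dg_cdl_mul g v r hr
  rw [← h1, ← h.dg_eq, add_comm]

theorem dq_dg {f : TR Q} {r : ℝ} {K : ℕ → ℝ} (hK : Q.Sub K) (hr : 0 ≤ r) (h : Sm K r f) (v : ℝ) :
    TR.dg (dq f r K hK) v = TR.dg f (r + v) := te_dg (dq_te hK hr h) v

/-- a window: a label `V` which knows the cells of the height, of the direction and of the line at the height `τ`, and
a sheet `α + β t + γ P` of depth `r` -/
structure Wn (Q : Sp) (L : Ln Q) (ξ : TR Q) (u : ℝ) (V : ∀ k, Setoid (Q.F k).Ω) (c r : ℝ) where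
  hc : 0 ≤ c
  hu : 0 ≤ u
  hcr : c + u ≤ r
  τ : TR Q
  φ : TR Q
  α : TR Q
  β : TR Q
  γ : TR Q
  K : ℕ → ℝ
  hK : Q.Sub K
  mξ : Mz V ξ
  mτ : Mz V τ
  mφ : Mz V φ
  mα : Mz V α
  mβ : Mz V β
  mγ : Mz V γ
  bt : Sm K c (L.t - τ)
  bx : Sm K u (L.x - ξ)
  ba : Sm K (c + u) (L.a + τ * L.x - φ)
  b0 : Sm K r (L.b + τ * L.y - α - β * τ - γ * (L.a + τ * L.x))
  b1 : Sm K (r - c) (L.y - β - γ * L.x)

namespace Wn

variable {L : Ln Q} {ξ : TR Q} {u : ℝ} {V : ∀ k, Setoid (Q.F k).Ω} {c r : ℝ} (W : Wn Q L ξ u V c r)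

include W in
theorem hr : 0 ≤ r := by
  have := W.hc
  have := W.hu
  have := W.hcr
  linarith

include W in
theorem hrc : 0 ≤ r - c := by
  have := W.hu
  have := W.hcr
  linarith

include W in
theorem hcu : 0 ≤ c + u := add_nonneg W.hc W.hu

/-- the height -/
def T : TR Q := dq (L.t - W.τ) c W.K W.hK
/-- the direction of the base line -/
def X : TR Q := dq (L.x - ξ) u W.K W.hK
/-- the position of the base line -/
def B : TR Q := dq (L.a + W.τ * L.x - W.φ) (c + u) W.K W.hK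
/-- the height of the top line above the sheet -/
def G0 : TR Q := dq (L.b + W.τ * L.y - W.α - W.β * W.τ - W.γ * (L.a + W.τ * L.x)) r W.K W.hK
/-- the slope of the top line above the sheet -/
def G1 : TR Q := dq (L.y - W.β - W.γ * L.x) (r - c) W.K W.hK
/-- the point of the base -/
def Y : TR Q := W.B + W.T * W.X
/-- the top coordinate above the sheet -/
def Z : TR Q := W.G0 + W.G1 * W.T

theorem T_te : TR.Te (L.t - W.τ) (cdl c W.hc * W.T) := dq_te W.hK W.hc W.bt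
theorem X_te : TR.Te (L.x - ξ) (cdl u W.hu * W.X) := dq_te W.hK W.hu W.bx
theorem B_te : TR.Te (L.a + W.τ * L.x - W.φ) (cdl (c + u) W.hcu * W.B) := dq_te W.hK W.hcu W.ba
theorem G0_te : TR.Te (L.b + W.τ * L.y - W.α - W.β * W.τ - W.γ * (L.a + W.τ * L.x)) (cdl r W.hr * W.G0) :=
  dq_te W.hK W.hr W.b0
theorem G1_te : TR.Te (L.y - W.β - W.γ * L.x) (cdl (r - c) W.hrc * W.G1) := dq_te W.hK W.hrc W.b1

theorem T_dg (v : ℝ) : TR.dg W.T v = TR.dg (L.t - W.τ) (c + v) := te_dg W.T_te v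
theorem X_dg (v : ℝ) : TR.dg W.X v = TR.dg (L.x - ξ) (u + v) := te_dg W.X_te v
theorem B_dg (v : ℝ) : TR.dg W.B v = TR.dg (L.a + W.τ * L.x - W.φ) (c + u + v) := te_dg W.B_te v
theorem G0_dg (v : ℝ) : TR.dg W.G0 v =
    TR.dg (L.b + W.τ * L.y - W.α - W.β * W.τ - W.γ * (L.a + W.τ * L.x)) (r + v) := te_dg W.G0_te v
theorem G1_dg (v : ℝ) : TR.dg W.G1 v = TR.dg (L.y - W.β - W.γ * L.x) (r - c + v) := te_dg W.G1_te v

/-- all relations on one typical event -/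
theorem typ_all : Typ (S := Q) (fun k ω =>
    TR.ev (L.t - W.τ) k ω = Q.dl c k * TR.ev W.T k ω ∧
    TR.ev (L.x - ξ) k ω = Q.dl u k * TR.ev W.X k ω ∧
    TR.ev (L.a + W.τ * L.x - W.φ) k ω = Q.dl (c + u) k * TR.ev W.B k ω ∧
    TR.ev (L.b + W.τ * L.y - W.α - W.β * W.τ - W.γ * (L.a + W.τ * L.x)) k ω = Q.dl r k * TR.ev W.G0 k ω ∧
    TR.ev (L.y - W.β - W.γ * L.x) k ω = Q.dl (r - c) k * TR.ev W.G1 k ω) :=
  (dq_typ W.hK W.bt).and ((dq_typ W.hK W.bx).and ((dq_typ W.hK W.ba).and ((dq_typ W.hK W.b0).and (dq_typ W.hK W.b1))))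

theorem Y_te : TR.Te (L.P - W.φ - ξ * (L.t - W.τ)) (cdl (c + u) W.hcu * W.Y) := by
  refine ⟨_, W.typ_all, Eventually.of_forall fun k ω _ h => ?_⟩
  obtain ⟨h1, h2, h3, -, -⟩ := h
  rw [TR.ev_mul, ev_cdl]
  have e1 : TR.ev W.Y k ω = TR.ev W.B k ω + TR.ev W.T k ω * TR.ev W.X k ω := rfl
  have e2 : TR.ev (L.P - W.φ - ξ * (L.t - W.τ)) k ω =
      TR.ev (L.a + W.τ * L.x - W.φ) k ω + TR.ev (L.t - W.τ) k ω * TR.ev (L.x - ξ) k ω := by
    show TR.ev L.a k ω + TR.ev L.t k ω * TR.ev L.x k ω - TR.ev W.φ k ω -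
      TR.ev ξ k ω * (TR.ev L.t k ω - TR.ev W.τ k ω) = (TR.ev L.a k ω + TR.ev W.τ k ω * TR.ev L.x k ω -
      TR.ev W.φ k ω) + (TR.ev L.t k ω - TR.ev W.τ k ω) * (TR.ev L.x k ω - TR.ev ξ k ω)
    ring
  rw [e2, h1, h2, h3, e1, dl_add]
  ring

theorem Z_te : TR.Te (L.R - W.α - W.β * L.t - W.γ * L.P) (cdl r W.hr * W.Z) := by
  refine ⟨_, W.typ_all, Eventually.of_forall fun k ω _ h => ?_⟩
  obtain ⟨h1, -, -, h4, h5⟩ := h
  rw [TR.ev_mul, ev_cdl]
  have e1 : TR.ev W.Z k ω = TR.ev W.G0 k ω + TR.ev W.G1 k ω * TR.ev W.T k ω := rfl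
  have e2 : TR.ev (L.R - W.α - W.β * L.t - W.γ * L.P) k ω =
      TR.ev (L.b + W.τ * L.y - W.α - W.β * W.τ - W.γ * (L.a + W.τ * L.x)) k ω +
      TR.ev (L.t - W.τ) k ω * TR.ev (L.y - W.β - W.γ * L.x) k ω := by
    show TR.ev L.b k ω + TR.ev L.t k ω * TR.ev L.y k ω - TR.ev W.α k ω - TR.ev W.β k ω * TR.ev L.t k ω -
      TR.ev W.γ k ω * (TR.ev L.a k ω + TR.ev L.t k ω * TR.ev L.x k ω) =
      (TR.ev L.b k ω + TR.ev W.τ k ω * TR.ev L.y k ω - TR.ev W.α k ω - TR.ev W.β k ω * TR.ev W.τ k ω -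
      TR.ev W.γ k ω * (TR.ev L.a k ω + TR.ev W.τ k ω * TR.ev L.x k ω)) +
      (TR.ev L.t k ω - TR.ev W.τ k ω) * (TR.ev L.y k ω - TR.ev W.β k ω - TR.ev W.γ k ω * TR.ev L.x k ω)
    ring
  rw [e2, h1, h4, h5, e1]
  have e3 : Q.dl r k = Q.dl c k * Q.dl (r - c) k := by
    rw [← dl_add]
    congr 1
    ring
  rw [e3]
  ring

theorem Y_dg (v : ℝ) : TR.dg W.Y v = TR.dg (L.P - W.φ - ξ * (L.t - W.τ)) (c + u + v) := te_dg W.Y_te v
theorem Z_dg (v : ℝ) : TR.dg W.Z v = TR.dg (L.R - W.α - W.β * L.t - W.γ * L.P) (r + v) := te_dg W.Z_te v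

/-! ### digits over a label which is finer than the label of the window -/

section up

variable {V' : ∀ k, Setoid (Q.F k).Ω} (hV : ∀ k, V' k ≤ V k) (e : ℝ) (he : 0 < e)

include hV in
theorem T_up (v : ℝ) : chgL V' e he (TR.dg W.T v) = chgL V' e he (TR.dg L.t (c + v)) := by
  rw [T_dg, (W.mτ.mono hV).sub_dg]

include hV in
theorem X_up (v : ℝ) : chgL V' e he (TR.dg W.X v) = chgL V' e he (TR.dg L.x (u + v)) := by
  rw [X_dg, (W.mξ.mono hV).sub_dg]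

include hV in
theorem B_up (v : ℝ) : chgL V' e he (TR.dg W.B v) ≤
    chgL V' e he (TR.dg L.a (c + u + v)) ⊔ chgL V' e he (TR.dg L.x (c + u + v)) := by
  rw [B_dg, (W.mφ.mono hV).sub_dg]
  exact chgL_add_le V' e he le_sup_left (chgL_mul_le V' e he (W.mτ.mono hV).le le_sup_right)

include hV in
theorem G0_up (v : ℝ) {A : (Q.chg V' e he).L} (h1 : chgL V' e he (TR.dg L.a (r + v)) ≤ A)
    (h2 : chgL V' e he (TR.dg L.x (r + v)) ≤ A) (h3 : chgL V' e he (TR.dg L.b (r + v)) ≤ A)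
    (h4 : chgL V' e he (TR.dg L.y (r + v)) ≤ A) : chgL V' e he (TR.dg W.G0 v) ≤ A := by
  have e1 : L.b + W.τ * L.y - W.α - W.β * W.τ - W.γ * (L.a + W.τ * L.x) =
      (L.b + W.τ * L.y - W.γ * (L.a + W.τ * L.x)) - (W.α + W.β * W.τ) :=
    tr_ext fun k ω => by simp only [TR.ev_add, TR.ev_sub, TR.ev_mul]; ring
  rw [G0_dg, e1, ((W.mα.mono hV).add ((W.mβ.mono hV).mul (W.mτ.mono hV))).sub_dg]
  exact chgL_sub_le V' e he (chgL_add_le V' e he h3 (chgL_mul_le V' e he (W.mτ.mono hV).le h4))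
    (chgL_mul_le V' e he (W.mγ.mono hV).le (chgL_add_le V' e he h1 (chgL_mul_le V' e he (W.mτ.mono hV).le h2)))

include hV in
theorem G1_up (v : ℝ) {A : (Q.chg V' e he).L} (h2 : chgL V' e he (TR.dg L.x (r - c + v)) ≤ A)
    (h4 : chgL V' e he (TR.dg L.y (r - c + v)) ≤ A) : chgL V' e he (TR.dg W.G1 v) ≤ A := by
  have e1 : L.y - W.β - W.γ * L.x = (L.y - W.γ * L.x) - W.β :=
    tr_ext fun k ω => by simp only [TR.ev_sub, TR.ev_mul]; ring
  rw [G1_dg, e1, (W.mβ.mono hV).sub_dg]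
  exact chgL_sub_le V' e he h4 (chgL_mul_le V' e he (W.mγ.mono hV).le h2)

include hV in
/-- the digits of the point of the base, given the height -/
theorem Y_up (v : ℝ) {A : (Q.chg V' e he).L} (hA : chgL V' e he (TR.dg L.t (c + u + v)) ≤ A) :
    chgL V' e he (TR.dg W.Y v) ⊔ A = chgL V' e he (TR.dg L.P (c + u + v)) ⊔ A := by
  have h1 : ∀ C : (Q.chg V' e he).L, A ≤ C →
      chgL V' e he (TR.dg (W.φ + ξ * (L.t - W.τ)) (c + u + v)) ≤ C := fun C hC =>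
    chgL_add_le V' e he (W.mφ.mono hV).le (chgL_mul_le V' e he (W.mξ.mono hV).le
      (chgL_sub_le V' e he (hA.trans hC) (W.mτ.mono hV).le))
  rw [Y_dg]
  have e1 : L.P - W.φ - ξ * (L.t - W.τ) = L.P - (W.φ + ξ * (L.t - W.τ)) :=
    tr_ext fun k ω => by simp only [TR.ev_add, TR.ev_sub, TR.ev_mul]; ring
  rw [e1]
  apply le_antisymm
  · exact sup_le (chgL_sub_le V' e he le_sup_left (h1 _ le_sup_right)) le_sup_right
  · refine sup_le ?_ le_sup_right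
    have h2 := chgL_add_le V' e he (x := chgL V' e he (TR.dg (L.P - (W.φ + ξ * (L.t - W.τ)))
      (c + u + v)) ⊔ A) (f := L.P - (W.φ + ξ * (L.t - W.τ))) (g := W.φ + ξ * (L.t - W.τ))
      (r := c + u + v) le_sup_left (h1 _ le_sup_right)
    rwa [sub_add_cancel] at h2

include hV in
/-- the digits of the top coordinate, given the height and the point of the base -/
theorem Z_up (v : ℝ) {A : (Q.chg V' e he).L} (hA : chgL V' e he (TR.dg L.t (r + v)) ≤ A)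
    (hB : chgL V' e he (TR.dg L.P (r + v)) ≤ A) :
    chgL V' e he (TR.dg W.Z v) ⊔ A = chgL V' e he (TR.dg L.R (r + v)) ⊔ A := by
  have h1 : ∀ C : (Q.chg V' e he).L, A ≤ C →
      chgL V' e he (TR.dg (W.α + W.β * L.t + W.γ * L.P) (r + v)) ≤ C := fun C hC =>
    chgL_add_le V' e he (chgL_add_le V' e he (W.mα.mono hV).le (chgL_mul_le V' e he (W.mβ.mono hV).le (hA.trans hC)))
      (chgL_mul_le V' e he (W.mγ.mono hV).le (hB.trans hC))
  rw [Z_dg]
  have e1 : L.R - W.α - W.β * L.t - W.γ * L.P = L.R - (W.α + W.β * L.t + W.γ * L.P) :=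
    tr_ext fun k ω => by simp only [TR.ev_add, TR.ev_sub, TR.ev_mul]; ring
  rw [e1]
  apply le_antisymm
  · exact sup_le (chgL_sub_le V' e he le_sup_left (h1 _ le_sup_right)) le_sup_right
  · refine sup_le ?_ le_sup_right
    have h2 := chgL_add_le V' e he (x := chgL V' e he (TR.dg (L.R - (W.α + W.β * L.t + W.γ * L.P))
      (r + v)) ⊔ A) (f := L.R - (W.α + W.β * L.t + W.γ * L.P)) (g := W.α + W.β * L.t + W.γ * L.P)
      (r := r + v) le_sup_left (h1 _ le_sup_right)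
    rwa [sub_add_cancel] at h2

end up

end Wn

end

end Pool.Agent.Helper68.ST2
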