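import Pool.Agent.Helper68.ST2.Rel
import Pool.Agent.Helper3.LF.Adm
import Pool.Agent.Helper25.EC.Rst

/-! The slopes `γ` of the sheets of two windows are close if the direction of the base line has digits on all events. -/

set_option autoImplicit false

namespace Pool.Agent.Helper68.ST2

open Finset Filter Topology Pool.Agent.Helper69.RK Pool.Agent.Helper40.EL Pool.Agent.Helper31.EC
open Pool.Agent.Helper31.EC.Sp Pool.Agent.Helper60.CS
open Pool.Agent.Helper97.SL (cdl ev_cdl cdl_dg)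

noncomputable section

variable {Q : Sp}

/-- on all events `x` has digits of all levels beyond `u` over the partition `V` -/
def Rich (V : ∀ k, Setoid (Q.F k).Ω) (x : TR Q) (u : ℝ) : Prop :=
  ∀ r, u < r → ∀ (E : ∀ k, (Q.F k).Ω → Prop) (hE : 0 < ul ((Q.chg V 1 one_pos).pr E)),
    restL (S := Q.chg V 1 one_pos) E hE (chgL V 1 one_pos (TR.dg x r)) ≠ ⊥

/-- functions whose oscillation on the classes of `V` is small on an event have no digits there -/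
theorem rest_bot {V : ∀ k, Setoid (Q.F k).Ω} {x : TR Q} {r : ℝ} (E : ∀ k, (Q.F k).Ω → Prop)
    (hE : 0 < ul ((Q.chg V 1 one_pos).pr E)) (A : ∀ k, (Q.F k).Ω → Prop) (hA : Typ (S := Q) A) (K : ℕ → ℝ)
    (hK : Q.Sub K) (h : ∀ᶠ k in UF, ∀ ω ω', (Q.F k).μ ω ≠ 0 → (Q.F k).μ ω' ≠ 0 → A k ω → A k ω' → E k ω → E k ω' →
      (V k ⊓ (Q.F k).Z) ω ω' → |TR.ev x k ω - TR.ev x k ω'| ≤ K k * Q.dl r k) :
    restL (S := Q.chg V 1 one_pos) E hE (chgL V 1 one_pos (TR.dg x r)) = ⊥ := by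
  have e1 : chgL V 1 one_pos (TR.dg x r) = TR.dg (trc V 1 one_pos x) r := by rw [trc_dg, one_mul]
  rw [e1, ← TR.rest_dg (S := Q.chg V 1 one_pos) E hE]
  apply le_antisymm _ bot_le
  rw [← cl_bot]
  have t1 := Pool.Agent.Helper25.EC.typ_rest (W := Q.chg V 1 one_pos) E hE
    (typ_chg V 1 one_pos hA)
  have t2 := Pool.Agent.Helper25.EC.rest_mem (W := Q.chg V 1 one_pos) E hE
  have hK' : ((Q.chg V 1 one_pos).rest E).Sub K := by
    have h1 := chg_sub V 1 one_pos hK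
    exact h1
  apply TR.dg_le_cl (S := (Q.chg V 1 one_pos).rest E) _ _ _ A t1 K hK'
  filter_upwards [h, t2] with k hk ht ω ω' a b ha hb z _
  have h1 := hk ω ω' (ht ω a).1 (ht ω' b).1 ha hb (ht ω a).2 (ht ω' b).2 z
  have e2 : ((Q.chg V 1 one_pos).rest E).dl r k = Q.dl r k := by
    have h2 : ((Q.chg V 1 one_pos).rest E).dl r k = (Q.chg V 1 one_pos).dl r k := rfl
    rw [h2, chg_dl, one_mul]
  rw [e2]
  exact h1

namespace Wn

variable {L : Ln Q} {ξ : TR Q} {u : ℝ} {V V' : ∀ k, Setoid (Q.F k).Ω} {c c' r r' : ℝ}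
  (W : Wn Q L ξ u V c r) (W' : Wn Q L ξ u V' c' r')

/-- the slopes of the sheets are close up to `ε` -/
theorem gam_typ (hr : r - c ≤ r' - c') (hV : ∀ k, V' k ≤ V k) (hR : Rich V' L.x u) {ε : ℝ} (hε : 0 < ε) :
    Typ (S := Q) (fun k ω => |TR.ev (W'.γ - W.γ) k ω| ≤ Q.dl (r - c - u - ε) k) := by
  rcases typ_or (S := Q) (fun k ω => |TR.ev (W'.γ - W.γ) k ω| ≤ Q.dl (r - c - u - ε) k) with h | h
  · exact h
  exfalso
  set E : ∀ k, (Q.F k).Ω → Prop := fun k ω => ¬ |TR.ev (W'.γ - W.γ) k ω| ≤ Q.dl (r - c - u - ε) k with hEd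
  have hE : 0 < ul ((Q.chg V' 1 one_pos).pr E) := h
  apply hR (u + ε) (by linarith) E hE
  have t1 := W.b1.and (W'.b1.anti W'.hK hr)
  refine rest_bot E hE _ t1 (fun k => 2 * (W.K k + W'.K k)) ?_ ?_
  · exact (Q.Sub_const (by norm_num : (0 : ℝ) ≤ 2)).mul (W.hK.add W'.hK)
  · filter_upwards [W.mβ.mono hV, W.mγ.mono hV, W'.mβ, W'.mγ, W.hK.1, W'.hK.1] with k p1 p2 p3 p4 p5 p6
      ω ω' a b hA hA' hω hω' z
    have f1 := p1 ω ω' a b z
    have f2 := p2 ω ω' a b z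
    have f3 := p3 ω ω' a b z
    have f4 := p4 ω ω' a b z
    obtain ⟨g1, g2⟩ := hA
    obtain ⟨g1', g2'⟩ := hA'
    simp only [TR.ev_sub, TR.ev_mul] at g1 g2 g1' g2'
    rw [← f1, ← f2] at g1'
    rw [← f3, ← f4] at g2'
    have hω1 : Q.dl (r - c - u - ε) k < |TR.ev (W'.γ - W.γ) k ω| := not_le.mp hω
    rw [TR.ev_sub] at hω1
    have key : |TR.ev W'.γ k ω - TR.ev W.γ k ω| * |TR.ev L.x k ω - TR.ev L.x k ω'| ≤
        2 * (W.K k + W'.K k) * Q.dl (r - c) k := by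
      rw [← abs_mul]
      have e1 : (TR.ev W'.γ k ω - TR.ev W.γ k ω) * (TR.ev L.x k ω - TR.ev L.x k ω') =
          ((TR.ev L.y k ω - TR.ev W.β k ω - TR.ev W.γ k ω * TR.ev L.x k ω) -
            (TR.ev L.y k ω - TR.ev W'.β k ω - TR.ev W'.γ k ω * TR.ev L.x k ω)) -
          ((TR.ev L.y k ω' - TR.ev W.β k ω - TR.ev W.γ k ω * TR.ev L.x k ω') -
            (TR.ev L.y k ω' - TR.ev W'.β k ω - TR.ev W'.γ k ω * TR.ev L.x k ω')) := by ring
      rw [e1]
      have h1 := abs_sub ((TR.ev L.y k ω - TR.ev W.β k ω - TR.ev W.γ k ω * TR.ev L.x k ω) -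
            (TR.ev L.y k ω - TR.ev W'.β k ω - TR.ev W'.γ k ω * TR.ev L.x k ω))
          ((TR.ev L.y k ω' - TR.ev W.β k ω - TR.ev W.γ k ω * TR.ev L.x k ω') -
            (TR.ev L.y k ω' - TR.ev W'.β k ω - TR.ev W'.γ k ω * TR.ev L.x k ω'))
      have h2 := abs_sub (TR.ev L.y k ω - TR.ev W.β k ω - TR.ev W.γ k ω * TR.ev L.x k ω)
            (TR.ev L.y k ω - TR.ev W'.β k ω - TR.ev W'.γ k ω * TR.ev L.x k ω)
      have h3 := abs_sub (TR.ev L.y k ω' - TR.ev W.β k ω - TR.ev W.γ k ω * TR.ev L.x k ω')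
            (TR.ev L.y k ω' - TR.ev W'.β k ω - TR.ev W'.γ k ω * TR.ev L.x k ω')
      linarith
    have hd := Q.dl_pos (r - c - u - ε) k
    have e3 : Q.dl (r - c) k = Q.dl (r - c - u - ε) k * Q.dl (u + ε) k := by
      rw [← dl_add]; congr 1; ring
    have h5 : Q.dl (r - c - u - ε) k * |TR.ev L.x k ω - TR.ev L.x k ω'| ≤
        Q.dl (r - c - u - ε) k * (2 * (W.K k + W'.K k) * Q.dl (u + ε) k) := by
      calc _ ≤ |TR.ev W'.γ k ω - TR.ev W.γ k ω| * |TR.ev L.x k ω - TR.ev L.x k ω'| :=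
            mul_le_mul_of_nonneg_right hω1.le (abs_nonneg _)
        _ ≤ _ := key
        _ = _ := by rw [e3]; ring
    exact le_of_mul_le_mul_left h5 hd

/-- THE SLOPES ARE CLOSE -/
theorem gam (hr : r - c ≤ r' - c') (hV : ∀ k, V' k ≤ V k) (hR : Rich V' L.x u) :
    ∃ Kg : ℕ → ℝ, Q.Sub Kg ∧ Sm Kg (r - c - u) (W'.γ - W.γ) := by
  obtain ⟨K, hK, h⟩ := Pool.Agent.Helper3.LF.typ_sub_le (S := Q)
    (fun k ω => |TR.ev (W'.γ - W.γ) k ω| / Q.dl (r - c - u) k) (fun ε hε => by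
      refine Typ.mono (S := Q) (gam_typ W W' hr hV hR hε) (Eventually.of_forall fun k ω _ h => ?_)
      rw [div_le_iff₀ (Q.dl_pos _ k)]
      refine h.trans (le_of_eq ?_)
      have e1 : Q.dl (r - c - u - ε) k = Q.dl (-ε) k * Q.dl (r - c - u) k := by
        rw [← dl_add]; congr 1; ring
      rw [e1]
      congr 1
      unfold Sp.dl
      congr 1
      ring)
  refine ⟨K, hK, Typ.mono (S := Q) h (Eventually.of_forall fun k ω _ g => ?_)⟩
  rwa [div_le_iff₀ (Q.dl_pos _ k)] at g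

end Wn

/-- a common constant -/
theorem Sm.common {K K' : ℕ → ℝ} (hK : Q.Sub K) (hK' : Q.Sub K') {r : ℝ} {f : TR Q} (h : Sm K r f) :
    Sm (fun k => K k + K' k) r f :=
  h.mono hK le_rfl (by filter_upwards [hK'.1] with k hk; linarith)

theorem Sm.common' {K K' : ℕ → ℝ} (hK : Q.Sub K) (hK' : Q.Sub K') {r : ℝ} {f : TR Q} (h : Sm K' r f) :
    Sm (fun k => K k + K' k) r f :=
  h.mono hK' le_rfl (by filter_upwards [hK.1] with k hk; linarith)

end

end Pool.Agent.Helper68.ST2
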