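import Pool.Agent.Helper68.ST2.Wn
import Pool.Agent.Helper98.FR.Ex

/-! Boxes: families of windows of a system of lines with a planar base `(t, P_j)` and a top coordinate `P_i`. -/

set_option autoImplicit false

namespace Pool.Agent.Helper68.ST2

open Finset Filter Topology Pool.Agent.Helper69.RK Pool.Agent.Helper40.EL Pool.Agent.Helper31.EC
open Pool.Agent.Helper31.EC.Sp Pool.Agent.Helper60.CS
open Pool.Agent.Helper98.FR (famPj)

noncomputable section

variable {S : Sp} {m : ℕ}

/-- the lines of the base coordinate `j` and of the top coordinate `i` -/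
def lnOf (s : Sys S m) (i j : Fin m) {K : Sp} (p : Pj K S) : Ln K where
  t := p.tr (TR.cor s.t 0)
  a := p.tr (TR.cor s.a j)
  x := p.tr (TR.cor s.x j)
  b := p.tr (TR.cor s.a i)
  y := p.tr (TR.cor s.x i)

/-- a literally nested family of maximal labels of windows with sheets of depth `rs n` -/
structure Bw (s : Sys S m) (i j : Fin m) (u : ℝ) (cs rs : ℕ → ℝ) where
  M : Fam S
  ξ : TR M.sp
  W : ∀ n, Wn M.sp (lnOf s i j (famPj M)) ξ u (fun k => (M k).V n) (cs n) (rs n)
  kap : ∀ n, IsKap s (cs n) (M.lab n)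
  nest : ∀ n n', cs n ≤ cs n' → ∀ k, (M k).V n' ≤ (M k).V n

end

end Pool.Agent.Helper68.ST2
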