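import Pool.Agent.Helper68.ST2.Nd
import Pool.Agent.Helper68.ST2.Gam
import Pool.Agent.Helper68.ST2.Sj
import Pool.Agent.Helper19.S12.Win

/-! The four windows of a box. -/

set_option autoImplicit false

namespace Pool.Agent.Helper68.ST2

open Finset Filter Topology Pool.Agent.Helper69.RK Pool.Agent.Helper40.EL Pool.Agent.Helper31.EC
open Pool.Agent.Helper31.EC.Sp Pool.Agent.Helper60.CS
open Pool.Agent.Helper19.S12 (la)
open Pool.Agent.Helper98.FR (famPj)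

noncomputable section

/-- the windows -/
def cw (c e sg : ℝ) : ℕ → ℝ
  | 0 => c
  | 1 => c + e
  | 2 => c + e * sg
  | 3 => c + e * sg + e
  | _ => c

variable {S : Sp} {m : ℕ}

/-- the numbers of a corner -/
structure Num (s : Sys S m) (i j : Fin m) (u c e sg σ v : ℝ) : Prop where
  he : 0 < e
  hs : 0 ≤ sg
  hσ : 0 ≤ σ
  hv : 0 ≤ v
  hvs : v ≤ sg
  h1 : σ + v ≤ 1
  q1 : la s i {0, j.succ} c - c ≤ la s i {0, j.succ} (c + e) - (c + e)
  q2 : la s i {0, j.succ} c - c ≤ la s i {0, j.succ} (c + e * sg) - (c + e * sg)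
  q3 : la s i {0, j.succ} c - c ≤ la s i {0, j.succ} (c + e * sg + e) - (c + e * sg + e)
  z1 : e * (σ + v) ≤ la s i {0, j.succ} (c + e) - la s i {0, j.succ} c
  z2 : e * σ ≤ la s i {0, j.succ} (c + e * sg) - la s i {0, j.succ} c
  z3 : e * (σ + v) ≤ la s i {0, j.succ} (c + e * sg + e) - la s i {0, j.succ} c
  lv : la s i {0, j.succ} c + e * (σ + v) ≤ 1
  lu : c + u + e * sg + e ≤ 1

/-- the box of a corner -/
abbrev Bn (s : Sys S m) (i j : Fin m) (u c e sg : ℝ) : Type 1 :=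
  Bw s i j u (cw c e sg) (fun n => la s i {0, j.succ} (cw c e sg n))

variable {s : Sys S m} {i j : Fin m} {u c e sg σ v : ℝ} (B : Bn s i j u c e sg)

/-- the direction of the base line has digits on all events, over all labels of the box -/
def RichB : Prop := ∀ n, Rich (fun k => (B.M k).V n) (lnOf s i j (famPj B.M)).x u

/-- the slopes are close -/
theorem gam3 (N : Num s i j u c e sg σ v) (hR : RichB B) : ∃ Kg : ℕ → ℝ, B.M.sp.Sub Kg ∧
    Sm Kg (la s i {0, j.succ} c - c - u) ((B.W 1).γ - (B.W 0).γ) ∧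
    Sm Kg (la s i {0, j.succ} c - c - u) ((B.W 2).γ - (B.W 0).γ) ∧
    Sm Kg (la s i {0, j.succ} c - c - u) ((B.W 3).γ - (B.W 0).γ) := by
  have he := N.he
  have hes : 0 ≤ e * sg := mul_nonneg N.he.le N.hs
  have n01 : ∀ k, (B.M k).V 1 ≤ (B.M k).V 0 := B.nest 0 1 (show c ≤ c + e by linarith)
  have n02 : ∀ k, (B.M k).V 2 ≤ (B.M k).V 0 := B.nest 0 2 (show c ≤ c + e * sg by linarith)
  have n03 : ∀ k, (B.M k).V 3 ≤ (B.M k).V 0 := B.nest 0 3 (show c ≤ c + e * sg + e by linarith)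
  obtain ⟨K1, h1, g1⟩ := Wn.gam (B.W 0) (B.W 1) N.q1 n01 (hR 1)
  obtain ⟨K2, h2, g2⟩ := Wn.gam (B.W 0) (B.W 2) N.q2 n02 (hR 2)
  obtain ⟨K3, h3, g3⟩ := Wn.gam (B.W 0) (B.W 3) N.q3 n03 (hR 3)
  refine ⟨fun k => K1 k + (K2 k + K3 k), h1.add (h2.add h3), g1.common h1 (h2.add h3), ?_, ?_⟩
  · exact Sm.common' h1 (h2.add h3) (g2.common h2 h3)
  · exact Sm.common' h1 (h2.add h3) (Sm.common' h2 h3 g3)

/-- THE FOUR WINDOWS of a box -/
def mkF (N : Num s i j u c e sg σ v) (Kg : ℕ → ℝ) (hKg : B.M.sp.Sub Kg)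
    (g1 : Sm Kg (la s i {0, j.succ} c - c - u) ((B.W 1).γ - (B.W 0).γ))
    (g2 : Sm Kg (la s i {0, j.succ} c - c - u) ((B.W 2).γ - (B.W 0).γ))
    (g3 : Sm Kg (la s i {0, j.succ} c - c - u) ((B.W 3).γ - (B.W 0).γ)) : Fw B.M.sp where
  L := lnOf s i j (famPj B.M)
  ξ := B.ξ
  u := u
  V0 := fun k => (B.M k).V 0
  V1 := fun k => (B.M k).V 1
  V2 := fun k => (B.M k).V 2
  V3 := fun k => (B.M k).V 3
  n1 := B.nest 0 1 (show c ≤ c + e by linarith [N.he])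
  n2 := B.nest 0 2 (show c ≤ c + e * sg by linarith [mul_nonneg N.he.le N.hs])
  n3 := B.nest 2 3 (show c + e * sg ≤ c + e * sg + e by linarith [N.he])
  c := c
  e := e
  s := sg
  r0 := la s i {0, j.succ} c
  r1 := la s i {0, j.succ} (c + e)
  r2 := la s i {0, j.succ} (c + e * sg)
  r3 := la s i {0, j.succ} (c + e * sg + e)
  he := N.he
  hs := N.hs
  W0 := B.W 0
  W1 := B.W 1
  W2 := B.W 2
  W3 := B.W 3
  σ := σ
  v := v
  hσ := N.hσ
  hv := N.hv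
  hvs := N.hvs
  h1 := N.h1
  q1 := N.q1
  q2 := N.q2
  q3 := N.q3
  z1 := N.z1
  z2 := N.z2
  z3 := N.z3
  Kg := Kg
  hKg := hKg
  g1 := g1
  g2 := g2
  g3 := g3
  lv := N.lv
  lu := N.lu

end

end Pool.Agent.Helper68.ST2
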