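import Pool.Agent.Helper68.ST2.Bak
import Pool.Agent.Helper19.S12.Out
import Pool.Agent.Helper19.S12.Pro
import Pool.Agent.Helper90.SEP.St2
import Pool.Agent.Helper99.LF.Aff
import Pool.Agent.Helper60.CS.Fwd
import Pool.Agent.Helper59.GR.Shf

/-! There are no corners for `ST 1 2`. -/

set_option autoImplicit false

namespace Pool.Agent.Helper68.ST2

open Finset Filter Topology Pool.Agent.Helper69.RK Pool.Agent.Helper40.EL Pool.Agent.Helper31.EC
open Pool.Agent.Helper31.EC.Sp Pool.Agent.Helper60.CS Pool.Agent.Helper47.T4 Pool.Agent.Helper47.CA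
open Pool.Agent.Helper40.NSK Pool.Agent.Helper99.LF Pool.Agent.Helper99.EC Pool.Agent.Helper99.CC
open Pool.Agent.Helper19.S12
open Pool.Agent.Helper98.FR (famPj)
open Pool.Agent.Helper90.SEP (RichX st_fw)
open Pool.Agent.Helper91.GR (SJ)
open Pool.Agent.Helper42.NS (HH)

noncomputable section

/-- the identity -/
def idPj (R : Sp) : Pj R R where
  π := fun _ ω => ω
  law := fun _ => push_id _
  hZ := fun _ _ _ _ _ => Iff.rfl
  hn := fun _ => rfl

theorem idPj_map (R : Sp) (x : R.L) : (idPj R).map x = x := by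
  induction x using cl_ind
  rfl

theorem rich_of_richX {Q : Sp} {V : ∀ k, Setoid (Q.F k).Ω} {x : TR Q} {u : ℝ} (h : RichX V x u) : Rich V x u := by
  intro r hr E hE hc
  apply h r hr 1 one_pos (Q.chg V 1 one_pos) (idPj _) E hE
  rw [idPj_map]
  exact hc

/-- **the flat theorem for lines over the plane, approximate form** -/
theorem st_lfe : ST_LFE 1 1 1 2 := lfe_of 1 1 1 2 (st_fwd 1 1 2) (st_lf_aff 2 le_rfl)

/-- the numbers of the corner -/
theorem exists_num {S : Sp} {s : Sys S 2} {i j : Fin 2} {c w b : ℝ} (K : Crn s i j c w b) (E0 : ℝ) (hE0 : 0 < E0) :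
    ∃ e, 0 < e ∧ e ≤ E0 ∧ e ≤ c ∧ 4 * e ≤ 1 - la s i {0, j.succ} c ∧
      Num s i j (la s j {0} 0) c e (1 / (w + 1)) (w * (1 / (w + 1)) - 1 / (w + 1) / 4) (1 / (w + 1)) ∧
      la s i {0, j.succ} (c + e * (1 / (w + 1))) ≤ la s i {0, j.succ} c + e * (w * (1 / (w + 1)) + 1 / (w + 1) / 4) := by
  have hw := K.w1
  obtain ⟨sg, hsg⟩ : ∃ sg : ℝ, sg = 1 / (w + 1) := ⟨_, rfl⟩
  rw [← hsg]
  have hw1 : (0 : ℝ) < w + 1 := by linarith
  have hsg0 : 0 < sg := by rw [hsg]; positivity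
  have hsgw : sg * (w + 1) = 1 := by rw [hsg]; field_simp
  have hsg1 : sg ≤ 1 := by nlinarith
  obtain ⟨η, hη⟩ : ∃ η, η = la s i {0, j.succ} := ⟨_, rfl⟩
  have hη1 : η c < 1 := by rw [hη]; exact K.eta_lt
  have hcu : c + la s j {0} 0 ≤ η c := by rw [hη]; exact K.cu_le
  have hu0 : 0 ≤ la s j {0} 0 := la_nonneg 0
  have hc := K.c_pos
  obtain ⟨E2, hE2, hF⟩ := K.F4 (A := 2) (ea := sg / 4) (by norm_num) (by linarith)
  rw [← hη] at hF ⊢
  obtain ⟨e, he⟩ : ∃ e, e = min (min E0 E2) (min c ((1 - η c) / 4)) := ⟨_, rfl⟩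
  have he0 : 0 < e := by
    rw [he]
    exact lt_min (lt_min hE0 hE2) (lt_min hc (by linarith))
  have h1 : e ≤ E0 := by rw [he]; exact (min_le_left _ _).trans (min_le_left _ _)
  have h2 : e ≤ E2 := by rw [he]; exact (min_le_left _ _).trans (min_le_right _ _)
  have h3 : e ≤ c := by rw [he]; exact (min_le_right _ _).trans (min_le_left _ _)
  have h4 : e ≤ (1 - η c) / 4 := by rw [he]; exact (min_le_right _ _).trans (min_le_right _ _)
  have hsp : ∀ c', c ≤ c' → c' ≤ c + 2 * e → η c - c ≤ η c' - c' := by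
    intro c' g1 g2
    have g3 := la_speed (s := s) (i := i) (J := {0, j.succ}) hc.le g1 (by linarith : c' ≤ 1)
    rw [← hη] at g3
    rw [min_eq_right (by linarith)] at g3
    linarith
  have hes : 0 ≤ e * sg := mul_nonneg he0.le hsg0.le
  have hes1 : e * sg ≤ e := mul_le_of_le_one_right he0.le hsg1
  have f1 := hF e he0 h2 1 (by norm_num)
  have f2 := hF e he0 h2 sg (by rw [abs_of_pos hsg0]; linarith)
  have f3 := hF e he0 h2 (sg + 1) (by rw [abs_of_pos (by linarith)]; linarith)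
  have a1 : c + 1 * e = c + e := by ring
  have a2 : c + sg * e = c + e * sg := by ring
  have a3 : c + (sg + 1) * e = c + e * sg + e := by ring
  rw [a1] at f1
  rw [a2] at f2
  rw [a3] at f3
  rw [abs_le] at f1 f2 f3
  have hwe : e ≤ w * e := by nlinarith
  refine ⟨e, he0, h1, h3, by linarith, ?_, ?_⟩
  · refine { he := he0, hs := hsg0.le, hσ := ?_, hv := hsg0.le, hvs := le_rfl, h1 := ?_, q1 := ?_, q2 := ?_, q3 := ?_,
             z1 := ?_, z2 := ?_, z3 := ?_, lv := ?_, lu := ?_ }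
    · nlinarith
    · nlinarith
    · rw [← hη]; exact hsp _ (by linarith) (by linarith)
    · rw [← hη]; exact hsp _ (by linarith) (by linarith)
    · rw [← hη]; exact hsp _ (by linarith) (by linarith)
    · rw [← hη]
      have g1 : e * (w * sg - sg / 4 + sg) = e * 1 - sg / 4 * e := by rw [← hsgw]; ring
      rw [g1]
      linarith [f1.1]
    · rw [← hη]
      have g1 : e * (w * sg - sg / 4) = w * (sg * e) - sg / 4 * e := by ring
      rw [g1]
      linarith [f2.1]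
    · rw [← hη]
      have g1 : e * (w * sg - sg / 4 + sg) = e * 1 - sg / 4 * e := by rw [← hsgw]; ring
      have g2 : w * ((sg + 1) * e) = w * sg * e + w * e := by ring
      have g3 : 0 ≤ w * sg * e := by positivity
      rw [g1]
      linarith [f3.1]
    · rw [← hη]
      have g1 : e * (w * sg - sg / 4 + sg) = e * 1 - sg / 4 * e := by rw [← hsgw]; ring
      have g2 : 0 ≤ sg / 4 * e := by positivity
      rw [g1]
      linarith
    · linarith
  · have g1 : e * (w * sg + sg / 4) = w * (sg * e) + sg / 4 * e := by ring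
    rw [g1]
    linarith [f2.2]

/-- NO CORNERS, from the facts of the corner -/
theorem crn_false {S : Sp} {s : Sys S 2} {i j : Fin 2} {c w b : ℝ} (K : Crn s i j c w b)
    (hbk : ∀ sg σ v ε P : ℝ, 0 < sg → 0 < ε → 0 < P → ∃ E0, 0 < E0 ∧ ∀ e, 0 < e → e ≤ E0 →
      ∀ (N : Num s i j (la s j {0} 0) c e sg σ v) (B : Bn s i j (la s j {0} 0) c e sg) (Kg : ℕ → ℝ)
        (hKg : B.M.sp.Sub Kg) (g1 : Sm Kg (la s i {0, j.succ} c - c - la s j {0} 0) ((B.W 1).γ - (B.W 0).γ))
        (g2 : Sm Kg (la s i {0, j.succ} c - c - la s j {0} 0) ((B.W 2).γ - (B.W 0).γ))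
        (g3 : Sm Kg (la s i {0, j.succ} c - c - la s j {0} 0) ((B.W 3).γ - (B.W 0).γ)),
        Bk (mkF B N Kg hKg g1 g2 g3).D (mkF B N Kg hKg g1 g2 g3).V1 (mkF B N Kg hKg g1 g2 g3).V3
          (mkF B N Kg hKg g1 g2 g3).L0 (mkF B N Kg hKg g1 g2 g3).M0 (mkF B N Kg hKg g1 g2 g3).M
          (mkF B N Kg hKg g1 g2 g3).L2 (mkF B N Kg hKg g1 g2 g3).X2 (mkF B N Kg hKg g1 g2 g3).Y2
          (mkF B N Kg hKg g1 g2 g3).Lx (2 - b) ε P)
    (hri : ∀ e sg (_ : 0 < e) (_ : 0 ≤ sg) (_ : c + e * sg + e < 1) (B : Bn s i j (la s j {0} 0) c e sg) (n : ℕ),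
      RichX (fun k => (B.M k).V n) (lnOf s i j (famPj B.M)).x (la s j {0} 0)) : False := by
  have hw := K.w1
  have hw1 : (0 : ℝ) < w + 1 := by linarith
  have hsg0 : (0 : ℝ) < 1 / (w + 1) := by positivity
  have hsg1 : 1 / (w + 1) ≤ 1 := by rw [div_le_one hw1]; linarith
  have hb1 := K.b1
  have hb2 := K.b2
  obtain ⟨ε0, hε0, hLF⟩ := st_lfe (2 - b) (1 / (w + 1) / 4) (1 / 2) (by linarith) (by positivity) (by norm_num)
  obtain ⟨P, hP, hP1, hcor⟩ := Bk.corner 1 (2 - b) (by linarith) (by linarith) ε0 hε0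
  obtain ⟨E1, hE1, hb⟩ := hbk (1 / (w + 1)) (w * (1 / (w + 1)) - 1 / (w + 1) / 4) (1 / (w + 1)) (P ^ 2 / 3) P hsg0
    (by positivity) hP
  obtain ⟨e, he, heE, hec, he4, N, hη⟩ := exists_num K E1 hE1
  obtain ⟨sg, hsg⟩ : ∃ sg : ℝ, sg = 1 / (w + 1) := ⟨_, rfl⟩
  rw [← hsg] at hLF hb N hη hsg0 hsg1
  have hsgw : sg * (w + 1) = 1 := by rw [hsg]; field_simp
  have hes : 0 ≤ e * sg := mul_nonneg he.le hsg0.le
  have hes1 : e * sg ≤ e := mul_le_of_le_one_right he.le hsg1
  have hc := K.c_pos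
  have hη1 := K.eta_lt
  have hcu := K.cu_le
  have hu0 : 0 ≤ la s j {0} 0 := la_nonneg 0
  -- the box
  have hcw : ∀ n, 0 ≤ cw c e sg n ∧ cw c e sg n ≤ c + 2 * e := by
    intro n
    match n with
    | 0 => exact ⟨hc.le, (by linarith : c ≤ c + 2 * e)⟩
    | 1 => exact ⟨(by linarith : 0 ≤ c + e), (by linarith : c + e ≤ c + 2 * e)⟩
    | 2 => exact ⟨(by linarith : 0 ≤ c + e * sg), (by linarith : c + e * sg ≤ c + 2 * e)⟩
    | 3 => exact ⟨(by linarith : 0 ≤ c + e * sg + e), (by linarith : c + e * sg + e ≤ c + 2 * e)⟩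
    | (n + 4) => exact ⟨hc.le, (by linarith : c ≤ c + 2 * e)⟩
  have hcr' : ∀ c', 0 ≤ c' → c' < 1 → c' + la s j {0} 0 ≤ 1 → c' + la s j {0} 0 ≤ la s i {0, j.succ} c' := by
    intro c' g0 g1 g2
    have h1 := la_line (s := s) (i := i) K.con g0 g1
    have h2 := la_le_SJ (s := s) (i := i) (J := {0}) (J' := {0, j.succ}) (by simp) c'
    have h3 := K.hu
    rw [h1] at h2
    exact (le_min g2 (by linarith)).trans h2
  obtain ⟨B⟩ := exists_Bw s i j hu0 K.H_xj (cw c e sg) (fun n => la s i {0, j.succ} (cw c e sg n)) (fun n => (hcw n).1)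
    (fun n => by linarith [(hcw n).2]) (fun n => hcr' _ (hcw n).1 (by linarith [(hcw n).2]) (by linarith [(hcw n).2]))
    (fun n => la_le_one _) (fun n => HH_la _)
  have hR : ∀ n, RichX (fun k => (B.M k).V n) (lnOf s i j (famPj B.M)).x (la s j {0} 0) :=
    hri e sg he hsg0.le (by linarith) B
  obtain ⟨Kg, hKg, g1, g2, g3⟩ := gam3 B N (fun n => rich_of_richX (hR n))
  have hB := hb e he heE N B Kg hKg g1 g2 g3
  obtain ⟨wq, hwq⟩ := st_fw (mkF B N Kg hKg g1 g2 g3) (hR 3) 2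
  have hC := hcor _ 1 2 _ _ _ _ _ _ _ _ _ _ (P ^ 2 / 3) (by positivity) (by linarith) hB
    ⟨wq, fun a ha => big_mono hP.le (hwq a ha)⟩
  have hLf := hLF _ _ hC
  obtain ⟨E, hE, hH⟩ := back B N Kg hKg g1 g2 g3 (by positivity) (by linarith) (by norm_num) hLf
    (by
      have g4 : 1 - (w * sg - sg / 4) - sg = sg / 4 := by linarith
      rw [g4]
      nlinarith)
    (hcr' _ (by linarith) (by linarith) (by linarith))
    (K.full_rob (by linarith) (by linarith) (B.kap 2))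
  have h5 := HH_iff_la.mp (K.rob.HH_im hH)
  rcases min_choice 1 (la s i {0, j.succ} c + e * (w * sg - sg / 4 + sg - sg / 4)) with h6 | h6
  · rw [h6] at h5
    have g5 : e * (w * sg + sg / 4) ≤ e := by
      apply mul_le_of_le_one_right he.le
      nlinarith
    linarith
  · rw [h6] at h5
    have g5 : e * (w * sg - sg / 4 + sg - sg / 4) = e * (w * sg + sg / 4) + e * (sg / 4) := by ring
    rw [g5] at h5
    have g6 : 0 < e * (sg / 4) := by positivity
    linarith

end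

end Pool.Agent.Helper68.ST2
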