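import Pool.Agent.Helper68.ST2.Fin
import Pool.Agent.Helper19.S12.Hbk
import Pool.Agent.Helper90.SEP.Rch

/-! `ST 1 2`. -/

set_option autoImplicit false

namespace Pool.Agent.Helper68.ST2

open Finset Filter Topology Pool.Agent.Helper69.RK Pool.Agent.Helper40.EL Pool.Agent.Helper31.EC
open Pool.Agent.Helper31.EC.Sp
open Pool.Agent.Helper19.S12

noncomputable section

/-- **`ST 1 2`** -/
theorem st12 : Pool.Agent.Helper59.EV.ST 1 2 := by
  by_contra hST
  obtain ⟨S, s, i, j, c, w, b, K⟩ := exists_crn (fun S s i j σ hij hh =>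
    Pool.Agent.Helper59.GR.Hf_of_SJ (by
      intro hm
      rcases Finset.mem_insert.mp hm with h1 | h1
      · exact absurd h1 (Fin.succ_ne_zero i)
      · exact hij (Fin.succ_injective 2 (Finset.mem_singleton.mp h1))) hh) hST
  exact crn_false K (crn_bk K) (fun _ _ _ _ _ B n => Pool.Agent.Helper90.SEP.Crn.rich K B n)

end

end Pool.Agent.Helper68.ST2
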