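import Pool.Agent.Helper68.ST2.Par
import Pool.Agent.Helper52.BK.Thm2

/-! From the sheet over the corner of four windows to a sheet of the window `c + e s`. -/

set_option autoImplicit false

namespace Pool.Agent.Helper68.ST2

open Finset Filter Topology Pool.Agent.Helper69.RK Pool.Agent.Helper40.EL Pool.Agent.Helper31.EC
open Pool.Agent.Helper31.EC.Sp Pool.Agent.Helper60.CS Pool.Agent.Helper47.T4 Pool.Agent.Helper47.CA
open Pool.Agent.Helper40.NSK Pool.Agent.Helper99.LF Pool.Agent.Helper99.EC Pool.Agent.Helper99.CC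
open Pool.Agent.Helper19.S12 (la)
open Pool.Agent.Helper98.FR (famPj)
open Pool.Agent.Helper3.LF (sp_Sub sp_dl sp_n)
open Pool.Agent.Helper52.BK
open Pool.Agent.Helper91.GR (SJ)
open Pool.Agent.Helper42.NS (HH)

noncomputable section

/-- partitions which are functions of an information of the space and of the label -/
theorem nul_of {S : Sp} {l : Lab S} {e : ℝ} {he : 0 < e} {P : (l.ovr e he).Inf} {A : S.Inf}
    (h : cl P ≤ l.upL e he (cl A)) :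
    Nul S (fun k => Pool.Agent.Helper31.EC.h (fc (P.1 k) : FL (l k).T) ((l k).v ⊔ (l k).p.map (rpI A k))) := by
  have h1 : PLe (rpI P) (rpI (l.upI e he A)) := PLe_rpI.mpr h
  have h2 : Nul (l.ovr e he) (fun k => Pool.Agent.Helper31.EC.h (rpI P k) (rpI (l.upI e he A) k)) := h1
  rw [Lab.nul_over] at h2
  have key : ∀ k, Pool.Agent.Helper31.EC.h (rpI P k) (rpI (l.upI e he A) k) =
      Pool.Agent.Helper31.EC.h (fc (P.1 k) : FL (l k).T) ((l k).v ⊔ (l k).p.map (rpI A k)) := by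
    intro k
    have e3 := (frb (l k).T (l k).V e he).h_map (fc (P.1 k)) ((l k).p.map (rpI A k))
    have e4 : (l k).p.map (rpI A k) ⊔ fc (frb (l k).T (l k).V e he).W = (l k).v ⊔ (l k).p.map (rpI A k) := sup_comm _ _
    rw [e4] at e3
    exact e3
  exact h2.congr fun k => congrArg (· / (S.F k).n) (key k)

/-! ### the cells of the corner -/

namespace Fw

variable {Q : Sp} (F : Fw Q)

theorem lv_le : F.D.cd.tr.lv.dg 1 ≤ chgL F.V2 F.e F.he F.Lx := by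
  have h1 : F.D.cd.tr.lv.dg 1 ≤ (fc F.D.cd.tr).iA := by
    unfold FTC.lv
    apply TR.vec_dg_le
    intro i
    refine Fin.addCases (fun i => ?_) (fun i => ?_) i
    · rw [Fin.append_left]
      refine Fin.addCases (fun i => ?_) (fun i => ?_) i
      · rw [Fin.append_left]
        have h2 := QS.dg_le_vd (fc F.D.cd.tr).a 1 i
        have h3 : QS.dg ((fc F.D.cd.tr).a i) 1 = TR.dg (F.D.cd.tr.a i) 1 := QS.dg_mk _ le_rfl
        rw [h3] at h2
        exact (h2.trans le_sup_left).trans le_sup_left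
      · rw [Fin.append_right]
        have h2 := QS.dg_le_vd (fc F.D.cd.tr).x 1 i
        have h3 : QS.dg ((fc F.D.cd.tr).x i) 1 = TR.dg (F.D.cd.tr.x i) 1 := QS.dg_mk _ le_rfl
        rw [h3] at h2
        exact (h2.trans le_sup_right).trans le_sup_left
    · rw [Fin.append_right]
      refine Fin.cases ?_ (fun j => ?_) i
      · have h3 : QS.dg (fc F.D.cd.tr).b 1 = TR.dg (F.D.cd.tr.c 0) 1 := QS.dg_mk _ le_rfl
        rw [← h3]
        exact le_sup_left.trans le_sup_right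
      · have h2 := QS.dg_le_vd (fc F.D.cd.tr).C 1 j
        have h3 : QS.dg ((fc F.D.cd.tr).C j) 1 = TR.dg (F.D.cd.tr.c j.succ) 1 := QS.dg_mk _ le_rfl
        rw [h3] at h2
        exact (h2.trans le_sup_right).trans le_sup_right
  refine h1.trans (F.D.cd.iA_le.trans (sup_le ?_ ?_))
  · rw [F.rL]
    exact F.a_l2 F.e F.he
  · have h2 := F.D.g_dg (F.σ + F.v)
    refine (le_of_eq h2).trans ?_
    exact F.a_g F.e F.he F.n2

theorem pv_le : F.D.cd.tr.pv.dg 1 ≤ chgL F.V2 F.e F.he (F.M ⊔ TR.dg F.L.R 1) := by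
  have hM : chgL F.V2 F.e F.he F.M ≤ chgL F.V2 F.e F.he (F.M ⊔ TR.dg F.L.R 1) := chgL_mono _ _ _ le_sup_left
  have hes := F.hes
  have hu := F.W0.hu
  have hc := F.W0.hc
  have T2le : chgL F.V2 F.e F.he (T2 F.D) ≤ chgL F.V2 F.e F.he F.M := by
    rw [T2_t]
    exact chgL_mono _ _ _ ((TR.dg_mono _ (by linarith [F.lu])).trans le_sup_left)
  have Y2le : chgL F.V2 F.e F.he F.Y2 ≤ chgL F.V2 F.e F.he F.M := by
    have h0 : chgL F.V2 F.e F.he (TR.dg F.L.t (F.c + F.e * F.s + F.u + F.e)) ≤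
        chgL F.V2 F.e F.he F.M := chgL_mono _ _ _ ((TR.dg_mono _ (by linarith [F.lu])).trans le_sup_left)
    have h6 := F.W2.Y_up (fun _ => le_rfl) F.e F.he F.e h0
    have h7 : chgL F.V2 F.e F.he (TR.dg F.L.P (F.c + F.e * F.s + F.u + F.e)) ≤
        chgL F.V2 F.e F.he F.M := chgL_mono _ _ _ ((TR.dg_mono _ (by linarith [F.lu])).trans le_sup_right)
    calc _ ≤ chgL F.V2 F.e F.he F.Y2 ⊔ chgL F.V2 F.e F.he F.M := le_sup_left
      _ = _ := h6
      _ ≤ _ := sup_le h7 le_rfl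
  unfold FTC.pv
  apply TR.vec_dg_le
  intro i
  refine Fin.lastCases ?_ (fun i => ?_) i
  · rw [Fin.snoc_last]
    have h1 : QS.dg (fc F.D.cd.tr).z 1 = TR.dg F.D.cd.tr.z 1 := by
      rw [fc_z, QS.dg_mk _ le_rfl]
    rw [← h1, F.D.z_dg le_rfl]
    have e1 : F.D.e * (1 - (1 - F.D.σ - F.D.v)) = F.e * (F.σ + F.v) := by
      show F.e * (1 - (1 - F.σ - F.v)) = _
      ring
    rw [e1]
    have lv := F.lv
    have h2 := F.W0.Z_up F.n2 F.e F.he (F.e * (F.σ + F.v)) (A := chgL F.V2 F.e F.he F.M)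
      (chgL_mono _ _ _ ((TR.dg_mono _ lv).trans le_sup_left)) (chgL_mono _ _ _ ((TR.dg_mono _ lv).trans le_sup_right))
    calc _ ≤ chgL F.V2 F.e F.he (TR.dg F.W0.Z (F.e * (F.σ + F.v))) ⊔ chgL F.V2 F.e F.he F.M := le_sup_left
      _ = _ := h2
      _ ≤ _ := sup_le (chgL_mono _ _ _ ((TR.dg_mono _ lv).trans le_sup_right)) hM
  · rw [Fin.snoc_castSucc]
    refine Fin.cases ?_ (fun i => ?_) i
    · exact (le_of_eq (F.D.t_dg 1)).trans (T2le.trans hM)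
    · have h2 := QS.dg_le_vd (fc F.D.cd.tr).y 1 i
      have h3 : QS.dg ((fc F.D.cd.tr).y i) 1 = TR.dg (F.D.cd.tr.a i + F.D.cd.tr.t * F.D.cd.tr.x i) 1 := by
        have e1 : (fc F.D.cd.tr).y i = QS.mk (F.D.cd.tr.a i + F.D.cd.tr.t * F.D.cd.tr.x i) := by
          rw [map_add, map_mul]
          rfl
        rw [e1, QS.dg_mk _ le_rfl]
      rw [h3, F.rY] at h2
      show TR.dg (F.D.cd.tr.a i + F.D.cd.tr.t * F.D.cd.tr.x i) 1 ≤ _
      exact h2.trans (Y2le.trans hM)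

end Fw

variable {S : Sp} {m : ℕ} {s : Sys S m} {i j : Fin m} {u c e sg σ v : ℝ} (B : Bn s i j u c e sg)
  (F : Fw B.M.sp) (hL : F.L = lnOf s i j (famPj B.M)) (hV : F.V2 = fun k => (B.M k).V 2)

/-! ### the informations of the corner -/

include hL in
theorem Lx_le : F.Lx ≤ (B.M.lab 2).pj.map (s.xi 1) := by
  have ha : ∀ i, TR.dg ((famPj B.M).tr (TR.cor s.a i)) 1 ≤ (B.M.lab 2).pj.map (s.xi 1) := by
    intro i
    rw [Pj.tr_cor]
    refine (TR.cor_dg_le _ _ _).trans ?_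
    rw [← Pj.map_dg]
    exact (B.M.lab 2).pj.map_mono (s.a_le_xi le_rfl)
  have hx : ∀ i, TR.dg ((famPj B.M).tr (TR.cor s.x i)) 1 ≤ (B.M.lab 2).pj.map (s.xi 1) := by
    intro i
    rw [Pj.tr_cor]
    refine (TR.cor_dg_le _ _ _).trans ?_
    rw [← Pj.map_dg]
    exact (B.M.lab 2).pj.map_mono (s.x_le_xi le_rfl)
  unfold Fw.Lx
  rw [hL]
  exact sup_le (sup_le (ha j) (hx j)) (sup_le (ha i) (hx i))

include hL in
theorem tp_le : TR.dg F.L.t 1 ≤ (B.M.lab 2).pj.map (lB s) ∧ TR.dg F.L.P 1 ≤ (B.M.lab 2).pj.map (lB s) ∧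
    TR.dg F.L.R 1 ≤ (B.M.lab 2).pj.map (lB s) := by
  have hP : ∀ i, TR.dg ((famPj B.M).tr (TR.cor s.P i)) 1 ≤ (B.M.lab 2).pj.map (lB s) := by
    intro i
    rw [Pj.tr_cor]
    refine (TR.cor_dg_le _ _ _).trans ?_
    rw [← Pj.map_dg]
    exact (B.M.lab 2).pj.map_mono le_sup_left
  refine ⟨?_, ?_, ?_⟩
  · rw [hL]
    show TR.dg ((famPj B.M).tr (TR.cor s.t 0)) 1 ≤ _
    rw [Pj.tr_cor]
    refine (TR.cor_dg_le _ _ _).trans ?_
    rw [← Pj.map_dg]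
    exact (B.M.lab 2).pj.map_mono le_sup_right
  · have e1 : F.L.P = (famPj B.M).tr (TR.cor s.P j) := by rw [hL]; rfl
    rw [e1]
    exact hP j
  · have e1 : F.L.R = (famPj B.M).tr (TR.cor s.P i) := by rw [hL]; rfl
    rw [e1]
    exact hP i

/-! ### the data of `st2_back2` -/

namespace Fw

variable {Q : Sp} (F : Fw Q)

/-- the depth of the normalised top coordinate of the corner -/
def zt : ℝ := F.r0 - F.e * (1 - F.σ - F.v)

theorem o0 : 0 ≤ 1 - F.σ - F.v := by linarith [F.h1]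

theorem U_dl (r : ℝ) (k : ℕ) : F.D.U.dl r k = Q.dl (F.e * r) k := chg_dl _ _ _ r k

/-- the values of the functions of the corner on a typical event -/
theorem ty0 : Typ (S := Q) (fun k ω =>
    (TR.ev (F.D.cd.tr.q 0) k ω = (TR.ev F.L.t k ω - TR.ev F.W2.τ k ω) / Q.dl (F.c + F.e * F.s) k ∧
    TR.ev (F.D.cd.tr.q 1) k ω = (TR.ev F.L.P k ω - TR.ev F.W2.φ k ω - TR.ev F.ξ k ω *
      (TR.ev F.L.t k ω - TR.ev F.W2.τ k ω)) / Q.dl (F.c + F.e * F.s + F.u) k) ∧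
    (TR.ev F.D.cd.tr.z k ω = (TR.ev F.L.R k ω - TR.ev F.W0.α k ω - TR.ev F.W0.β k ω * TR.ev F.L.t k ω -
      TR.ev F.W0.γ k ω * TR.ev F.L.P k ω) / Q.dl F.zt k ∧
    TR.ev (F.D.cd.tr.q 0) k ω = TR.ev F.W2.T k ω ∧ TR.ev (F.D.cd.tr.q 1) k ω = TR.ev F.W2.Y k ω ∧
    |TR.ev F.D.cd.tr.z k ω| ≤ |TR.ev F.W0.Z k ω|)) := by
  obtain ⟨E1, hE1, h1⟩ := F.t_te
  obtain ⟨E2, hE2, h2⟩ := F.y_te
  obtain ⟨E3, hE3, h3⟩ := F.D.z_te
  obtain ⟨E4, hE4, h4⟩ := F.W2.T_te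
  obtain ⟨E5, hE5, h5⟩ := F.W2.Y_te
  obtain ⟨E6, hE6, h6⟩ := F.W0.Z_te
  have f1 : Typ (S := Q) E1 := hE1
  have f2 : Typ (S := Q) E2 := hE2
  have f3 : Typ (S := Q) E3 := hE3
  refine Typ.mono (S := Q) (Typ.and (S := Q) (Typ.and (S := Q) f1 (Typ.and (S := Q) f2 f3))
    (hE4.and (hE5.and hE6))) ?_
  filter_upwards [h1, h2, h3, h4, h5, h6] with k g1 g2 g3 g4 g5 g6 ω hω hh
  obtain ⟨⟨a1, a2, a3⟩, a4, a5, a6⟩ := hh
  have k1 := g1 ω hω a1
  have k2 := g2 ω hω a2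
  have k3 := g3 ω hω a3
  have k4 := g4 ω hω a4
  have k5 := g5 ω hω a5
  have k6 := g6 ω hω a6
  rw [TR.ev_mul, Pool.Agent.Helper97.SL.ev_cdl] at k4 k5 k6
  have ez : TR.ev F.D.cd.tr.z k ω = F.D.U.dl (1 - F.σ - F.v) k * TR.ev F.W0.Z k ω := by
    have e2 : TR.ev (cs F.D.U (1 - F.D.σ - F.D.v)) k ω = F.D.U.dl (1 - F.σ - F.v) k :=
        cs_ev (S := F.D.U) F.o0 k ω
    rw [← e2]
    exact k3
  refine ⟨⟨?_, ?_⟩, ?_, k1, k2, ?_⟩
  · have e1 : TR.ev (F.D.cd.tr.q 0) k ω = TR.ev F.W2.T k ω := k1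
    rw [e1, eq_div_iff (Q.dl_pos _ k).ne', mul_comm, ← k4, TR.ev_sub]
  · have e1 : TR.ev (F.D.cd.tr.q 1) k ω = TR.ev F.W2.Y k ω := k2
    rw [e1, eq_div_iff (Q.dl_pos _ k).ne', mul_comm, ← k5]
    simp only [TR.ev_sub, TR.ev_mul]
  · have e3 : Q.dl F.r0 k = Q.dl (F.e * (1 - F.σ - F.v)) k * Q.dl F.zt k := by
      rw [← dl_add]
      congr 1
      unfold zt
      ring
    rw [ez, U_dl, eq_div_iff (Q.dl_pos _ k).ne']
    have e4 : Q.dl (F.e * (1 - F.σ - F.v)) k * TR.ev F.W0.Z k ω * Q.dl F.zt k = Q.dl F.r0 k * TR.ev F.W0.Z k ω := by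
      rw [e3]; ring
    rw [e4, ← k6]
    simp only [TR.ev_sub, TR.ev_mul]
  · rw [ez, U_dl, abs_mul, abs_of_pos (Q.dl_pos _ k)]
    have h7 := Q.dl_anti (mul_nonneg F.he.le F.o0) k
    rw [Q.dl_zero] at h7
    exact mul_le_of_le_one_left (abs_nonneg _) h7

end Fw

section box

variable {S : Sp} {m : ℕ} {s : Sys S m} {i j : Fin m} {u c e sg σ v : ℝ} (B : Bn s i j u c e sg)
  (N : Num s i j u c e sg σ v) (Kg : ℕ → ℝ) (hKg : B.M.sp.Sub Kg)
  (g1 : Sm Kg (la s i {0, j.succ} c - c - u) ((B.W 1).γ - (B.W 0).γ))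
  (g2 : Sm Kg (la s i {0, j.succ} c - c - u) ((B.W 2).γ - (B.W 0).γ))
  (g3 : Sm Kg (la s i {0, j.succ} c - c - u) ((B.W 3).γ - (B.W 0).γ))

/-- a common bound of tame functions -/
theorem tame6 {Q : Sp} (f : Fin 6 → TR Q) : ∃ K : ℕ → ℝ, Q.Sub K ∧
    Typ (S := Q) (fun k ω => ∀ a, |TR.ev (f a) k ω| ≤ K k) := by
  have h : ∀ a, ∃ K : ℕ → ℝ, Q.Sub K ∧ Sm K 0 (f a) := fun a => Sm.tame (f a)
  choose K hK hf using h
  have key : ∀ s : Finset (Fin 6), Q.Sub (fun k => ∑ a ∈ s, K a k) ∧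
      Typ (S := Q) (fun k ω => ∀ a ∈ s, |TR.ev (f a) k ω| ≤ ∑ a ∈ s, K a k) := by
    intro s
    induction s using Finset.induction_on with
    | empty =>
      refine ⟨by simpa using Q.Sub_const le_rfl, Typ.mono (S := Q) Typ_true (Eventually.of_forall fun k ω _ _ a ha => ?_)⟩
      exact absurd ha (Finset.notMem_empty a)
    | insert b s hb ih =>
      refine ⟨?_, ?_⟩
      · have h1 := (hK b).add ih.1
        refine h1.mono ?_ ?_
        · filter_upwards [h1.1] with k hk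
          rw [Finset.sum_insert hb]; exact hk
        · refine Eventually.of_forall fun k => ?_
          rw [Finset.sum_insert hb]
      · refine Typ.mono (S := Q) (E := fun k ω => (∀ a ∈ s, |TR.ev (f a) k ω| ≤ ∑ a ∈ s, K a k) ∧
          |TR.ev (f b) k ω| ≤ K b k * Q.dl 0 k) (ih.2.and (hf b)) ?_
        filter_upwards [(hK b).1, ih.1.1] with k p1 p2 ω _ h a ha
        rw [Finset.sum_insert hb]
        rw [Q.dl_zero, mul_one] at h
        rcases Finset.mem_insert.mp ha with h1 | h1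
        · rw [h1]
          linarith [h.2]
        · linarith [h.1 a h1]
  obtain ⟨h1, h2⟩ := key Finset.univ
  exact ⟨_, h1, Typ.mono (S := Q) h2 (Eventually.of_forall fun k ω _ h a => h a (Finset.mem_univ a))⟩

/-- the data of the first sheet -/
theorem exists_bk : ∃ D : BkD s (B.M.lab 2) i j (c + e * sg) u (mkF B N Kg hKg g1 g2 g3).zt,
    (∀ k a ω, D.q k a ω = TR.ev ((mkF B N Kg hKg g1 g2 g3).D.cd.tr.q a) k ω) ∧
    (∀ k ω, D.z k ω = TR.ev (mkF B N Kg hKg g1 g2 g3).D.cd.tr.z k ω) := by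
  set F := mkF B N Kg hKg g1 g2 g3 with hF
  obtain ⟨K, hK, hb⟩ := tame6 (Q := B.M.sp) ![F.W2.T, F.W2.Y, F.W0.Z, F.ξ, F.W0.β, F.W0.γ]
  have hd : ∀ r k, B.M.sp.dl r k = S.dl r k := fun r k => sp_dl (B.M.lab 2) r k
  have n2 : ∀ k, (B.M k).V 2 ≤ (B.M k).V 0 := F.n2
  refine ⟨{ tau := fun k ω => TR.ev F.W2.τ k ω
            ph0 := fun k ω => TR.ev F.W2.φ k ω
            ph1 := fun k ω => TR.ev F.ξ k ω
            al := fun k ω => TR.ev F.W0.α k ω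
            be := fun k ω => TR.ev F.W0.β k ω
            ga := fun k ω => TR.ev F.W0.γ k ω
            q := fun k a ω => TR.ev (F.D.cd.tr.q a) k ω
            z := fun k ω => TR.ev F.D.cd.tr.z k ω
            K := K
            hK := (sp_Sub (B.M.lab 2)).mp hK
            hm := ?_
            ty := ?_ }, fun _ _ _ => rfl, fun _ _ => rfl⟩
  · filter_upwards [F.W2.mτ, F.W2.mφ, F.W2.mξ, F.W0.mα.mono n2, F.W0.mβ.mono n2, F.W0.mγ.mono n2] with k p1 p2 p3 p4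
      p5 p6 ω ω' a b hv hz
    exact ⟨p1 ω ω' a b ⟨hv, hz⟩, p2 ω ω' a b ⟨hv, hz⟩, p3 ω ω' a b ⟨hv, hz⟩, p4 ω ω' a b ⟨hv, hz⟩,
      p5 ω ω' a b ⟨hv, hz⟩, p6 ω ω' a b ⟨hv, hz⟩⟩
  · refine Typ.mono (S := B.M.sp) (Typ.and (S := B.M.sp) F.ty0 hb) (Eventually.of_forall fun k ω _ h => ?_)
    obtain ⟨⟨⟨a1, a2⟩, a3, b1, b2, b3⟩, h2⟩ := h
    rw [hd] at a1 a2 a3
    refine ⟨⟨a1, a2, a3⟩, ⟨?_, ?_, ?_⟩, ?_, ?_, ?_⟩
    · exact (le_of_eq (congrArg abs b1)).trans (h2 0)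
    · exact (le_of_eq (congrArg abs b2)).trans (h2 1)
    · exact b3.trans (h2 2)
    · exact h2 3
    · exact h2 4
    · exact h2 5

/-- the data of the reference sheet -/
theorem exists_rf : Nonempty (RfD s (B.M.lab 2) i j (la s i {0, j.succ} (c + e * sg))) := by
  obtain ⟨K, hK, hb⟩ := tame6 (Q := B.M.sp) ![(B.W 2).Z, (B.W 2).β, (B.W 2).γ, 0, 0, 0]
  have hd : ∀ r k, B.M.sp.dl r k = S.dl r k := fun r k => sp_dl (B.M.lab 2) r k
  refine ⟨{ al := fun k ω => TR.ev (B.W 2).α k ω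
            be := fun k ω => TR.ev (B.W 2).β k ω
            ga := fun k ω => TR.ev (B.W 2).γ k ω
            K := K
            hK := (sp_Sub (B.M.lab 2)).mp hK
            hm := ?_
            ty := ?_ }⟩
  · filter_upwards [(B.W 2).mα, (B.W 2).mβ, (B.W 2).mγ] with k p4 p5 p6 ω ω' a b hv hz
    exact ⟨p4 ω ω' a b ⟨hv, hz⟩, p5 ω ω' a b ⟨hv, hz⟩, p6 ω ω' a b ⟨hv, hz⟩⟩
  · obtain ⟨E, hE, hh⟩ := (B.W 2).Z_te
    refine Typ.mono (S := B.M.sp) (Typ.and (S := B.M.sp) hE hb) ?_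
    filter_upwards [hh] with k hk ω hω h
    have h1 := hk ω hω h.1
    rw [TR.ev_mul, Pool.Agent.Helper97.SL.ev_cdl] at h1
    simp only [TR.ev_sub, TR.ev_mul] at h1
    refine ⟨?_, h.2 1, h.2 2⟩
    have e1 : |TR.ev (lnOf s i j (famPj B.M)).R k ω - TR.ev (B.W 2).α k ω -
        TR.ev (B.W 2).β k ω * TR.ev (lnOf s i j (famPj B.M)).t k ω -
        TR.ev (B.W 2).γ k ω * TR.ev (lnOf s i j (famPj B.M)).P k ω| ≤ K k * S.dl (cw c e sg 2 |> la s i {0, j.succ}) k := by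
      rw [h1, abs_mul, abs_of_pos (B.M.sp.dl_pos _ k), mul_comm, hd]
      exact mul_le_mul_of_nonneg_right (h.2 0) (S.dl_pos _ k).le
    exact e1

theorem cells_line : Nul S (fun k => Pool.Agent.Helper31.EC.h
    (fc (Setoid.ker ((mkF B N Kg hKg g1 g2 g3).D.cd.tr.lv.cellv 1 k)) : FL (B.M.lab 2 k).T)
    ((B.M.lab 2 k).v ⊔ (B.M.lab 2 k).p.map (cA s (c + e * sg) k))) := by
  set F := mkF B N Kg hKg g1 g2 g3 with hF
  have hb : Bdd (S := F.D.U) (F.D.cd.tr.lv.cellv 1) := VV.bdd _ _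
  have h1 : F.D.cd.tr.lv.dg 1 = cl hb.toInf := io_eq hb
  have h2 := F.lv_le
  have h3 := Lx_le B F rfl
  have h4 : chgL F.V2 F.e F.he F.Lx ≤ (B.M.lab 2).upL e N.he (lA s (c + e * sg)) :=
    chgL_mono F.V2 F.e F.he (h3.trans ((B.M.lab 2).pj.map_mono le_sup_left))
  rw [h1] at h2
  have h5 := h2.trans h4
  rw [← cl_A] at h5
  exact nul_of (l := B.M.lab 2) (e := e) (he := N.he) (P := hb.toInf)
    (A := Inf.sup (Inf.sup (s.Ia 1) (s.Ix 1)) (s.It (c + e * sg))) h5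

theorem cells_point : Nul S (fun k => Pool.Agent.Helper31.EC.h
    (fc (Setoid.ker ((mkF B N Kg hKg g1 g2 g3).D.cd.tr.pv.cellv 1 k)) : FL (B.M.lab 2 k).T)
    ((B.M.lab 2 k).v ⊔ (B.M.lab 2 k).p.map (cB s k))) := by
  set F := mkF B N Kg hKg g1 g2 g3 with hF
  have hb : Bdd (S := F.D.U) (F.D.cd.tr.pv.cellv 1) := VV.bdd _ _
  have h1 : F.D.cd.tr.pv.dg 1 = cl hb.toInf := io_eq hb
  have h2 := F.pv_le
  obtain ⟨p1, p2, p3⟩ := tp_le B F rfl
  have h4 : chgL F.V2 F.e F.he (F.M ⊔ TR.dg F.L.R 1) ≤ (B.M.lab 2).upL e N.he (lB s) :=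
    chgL_mono F.V2 F.e F.he (sup_le (sup_le p1 p2) p3)
  rw [h1] at h2
  have h5 := h2.trans h4
  rw [← cl_B] at h5
  exact nul_of (l := B.M.lab 2) (e := e) (he := N.he) (P := hb.toInf)
    (A := Inf.sup (s.IP 1) (s.It 1)) h5

/-- THE SHEET over the corner is a sheet of the window `c + e sg` -/
theorem back {del ε : ℝ} (hd0 : 0 ≤ del) (hd1 : del ≤ 1) (hε : ε < 1) (hLf : Lf (mkF B N Kg hKg g1 g2 g3).D.cd.tr 1 del ε)
    (hζ : 0 ≤ la s i {0, j.succ} c - e * (1 - σ - v)) (hcr : c + e * sg + u ≤ la s i {0, j.succ} (c + e * sg))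
    (hfull : Slow.RobGe (S := (B.M.lab 2).ovr 1 one_pos) (up1 (B.M.lab 2) s.T ⊔
      up1 (B.M.lab 2) (TR.dg (TR.cor s.P j) 1)) ⊥ (2 - 2 * (c + e * sg) - u)) :
    ∃ (E : ∀ k, (B.M.lab 2 k).T.Ω → Prop) (hE : 0 < ul ((B.M.lab 2).sp.pr E)),
      HH (SJ i {0, j.succ}) (s.im (B.M.lab 2).pj E hE) (c + e * sg)
        (min 1 (la s i {0, j.succ} c + e * (σ + v - del))) := by
  have hes : 0 ≤ e * sg := mul_nonneg N.he.le N.hs
  obtain ⟨D, hq, hz⟩ := exists_bk B N Kg hKg g1 g2 g3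
  obtain ⟨R⟩ := exists_rf B
  let F := mkF B N Kg hKg g1 g2 g3
  have hf : ∀ᶠ k in UF, LfF (((B.M.lab 2) k).T.chg ((B.M k).V 2) e N.he) 1 (D.q k) (D.z k)
      (Setoid.ker (F.D.cd.tr.pv.cellv 1 k)) (Setoid.ker (F.D.cd.tr.lv.cellv 1 k))
      (2 ^ (del * e * (S.F k).n)) (S.dl ((1 - del) * e) k) ε := by
    have h0 := hLf
    unfold Lf at h0
    filter_upwards [h0] with k hk
    have e1 : D.q k = fun a ω => TR.ev (F.D.cd.tr.q a) k ω := funext fun a => funext fun ω => hq k a ω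
    have e2 : D.z k = TR.ev F.D.cd.tr.z k := funext fun ω => hz k ω
    have e3 : (F.D.U.F k).n = e * (S.F k).n := by
      have h1 : (F.D.U.F k).n = e * (B.M.sp.F k).n := rfl
      have h2 : (B.M.sp.F k).n = (S.F k).n := sp_n (B.M.lab 2) k
      rw [h1, h2]
    have e4 : F.D.U.dl (1 - del) k = S.dl ((1 - del) * e) k := by
      have h1 := F.U_dl (1 - del) k
      have h2 : B.M.sp.dl (F.e * (1 - del)) k = S.dl (F.e * (1 - del)) k := sp_dl (B.M.lab 2) _ k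
      rw [h1, h2, mul_comm]
      rfl
    rw [e3, e4] at hk
    have e5 : del * (e * (S.F k).n) = del * e * (S.F k).n := by ring
    rw [e5] at hk
    rw [e1, e2]
    exact hk
  obtain ⟨E, hE, -, h⟩ := st2_back2 (s := s) (l := B.M.lab 2) (i := i) (j := j) (c := c + e * sg) (u := u) (B.kap 2)
    (by linarith [(B.W 0).hc, show (0 : ℝ) ≤ c from (B.W 0).hc]) (B.W 0).hu hζ (by linarith) D R
    (fun k => (B.M k).V 2) e N.he (Eventually.of_forall fun k ω ω' _ _ h _ => h)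
    (fun k => Setoid.ker (F.D.cd.tr.pv.cellv 1 k)) (fun k => Setoid.ker (F.D.cd.tr.lv.cellv 1 k))
    (cells_line B N Kg hKg g1 g2 g3) (cells_point B N Kg hKg g1 g2 g3) hd0 hd1 hε hf hfull
  refine ⟨E, hE, ?_⟩
  have e6 : la s i {0, j.succ} c + e * (σ + v - del) = (mkF B N Kg hKg g1 g2 g3).zt + (1 - del) * e := by
    show _ = la s i {0, j.succ} c - e * (1 - σ - v) + (1 - del) * e
    ring
  rw [e6]
  exact h

end box

end

end Pool.Agent.Helper68.ST2
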