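import Pool.Agent.Helper68.ST2.Top
import Pool.Agent.Helper89.LS.MainE

/-! Kakeya sets of `ℝ ^ 3` (the theorem of Wang and Zahl), as a check of the architecture. -/

set_option autoImplicit false

namespace Pool.Agent.Helper68.ST2

theorem ek2 : Pool.Agent.Helper89.LS.EK 2 := Pool.Agent.Helper59.EV.ek_of_st le_rfl st12

/-- Kakeya sets of `ℝ ^ 3` have Hausdorff dimension `3` -/
theorem kakeya3 (K : Set (EuclideanSpace ℝ (Fin 3)))
    (hK : ∀ e : EuclideanSpace ℝ (Fin 3), ‖e‖ = 1 → ∃ p, ∀ t : ℝ, 0 ≤ t → t ≤ 1 → p + t • e ∈ K) : dimH K = 3 :=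
  Pool.Agent.Helper89.LS.kakeya_of_ek 3 (by norm_num) ek2 K hK

end Pool.Agent.Helper68.ST2
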