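import Pool.Agent.Helper60.CS.Zo

/-! Refinement of the base of a space: the map of entropy lattices and of tame functions. -/

set_option autoImplicit false

namespace Pool.Agent.Helper68.ST2

open Finset Filter Topology Pool.Agent.Helper69.RK Pool.Agent.Helper40.EL Pool.Agent.Helper31.EC
open Pool.Agent.Helper31.EC.Sp

noncomputable section

/-- a measure preserving projection of `K` onto `R`, the base of `K` is finer -/
structure Rb (K R : Sp) where
  π : ∀ k, (K.F k).Ω → (R.F k).Ω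
  law : ∀ k, push (π k) (K.F k).μ = (R.F k).μ
  hZ : ∀ k ω ω', (K.F k).μ ω ≠ 0 → (K.F k).μ ω' ≠ 0 → (K.F k).Z ω ω' → (R.F k).Z (π k ω) (π k ω')
  hn : ∀ k, (K.F k).n = (R.F k).n

namespace Rb

variable {K R : Sp} (q : Rb K R)

/-- the same space with the old base -/
def old : Sp where
  F := fun k =>
    { Ω := (K.F k).Ω
      ft := (K.F k).ft
      μ := (K.F k).μ
      nn := (K.F k).nn
      ms := (K.F k).ms
      Z := Setoid.comap (q.π k) (R.F k).Z
      n := (K.F k).n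
      pos := (K.F k).pos }
  lim := K.lim

/-- the projection with the old base -/
def pj : Pj q.old R where
  π := q.π
  law := q.law
  hZ := fun _ _ _ _ _ => Iff.rfl
  hn := q.hn

theorem supp (k : ℕ) (ω : (K.F k).Ω) (h : (K.F k).μ ω ≠ 0) : (R.F k).μ (q.π k ω) ≠ 0 := q.pj.supp k ω h

theorem nv_le (k : ℕ) (A : Setoid (K.F k).Ω) (ω : (K.F k).Ω) (hω : (K.F k).μ ω ≠ 0) :
    Sp.nv (K.F k) A ω ≤ Sp.nv (q.old.F k) A ω := by
  unfold Sp.nv
  apply nvf_le_of_rel
  intro ω' h1 h2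
  exact Quotient.sound (q.hZ k ω' ω h1 hω (Quotient.exact h2))

theorem rt_le_old (A B : ∀ k, Setoid (K.F k).Ω) (k : ℕ) : K.rt A B k ≤ q.old.rt A B k := by
  unfold Sp.rt
  apply div_le_div_of_nonneg_right _ (K.F k).pos.le
  apply (K.F k).e_anti
  intro ω ω' h1 h2 h3
  exact ⟨h3.1, q.hZ k ω ω' h1 h2 h3.2⟩

theorem VB_of_old {A : ∀ k, Setoid (K.F k).Ω} (hA : q.old.VB A) : K.VB A := by
  obtain ⟨C, hC⟩ := hA
  refine ⟨C, ?_⟩
  filter_upwards [hC] with k hk ω hω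
  exact (Nat.cast_le.mpr (q.nv_le k (A k) ω hω)).trans (hk ω hω)

/-- informations -/
def mapI (A : R.Inf) : K.Inf := ⟨q.pj.pb A.1, q.VB_of_old (q.pj.mapI A).2⟩

theorem rt_le (A B : ∀ k, Setoid (R.F k).Ω) (k : ℕ) : K.rt (q.pj.pb A) (q.pj.pb B) k ≤ R.rt A B k := by
  rw [← q.pj.rt_pb]
  exact q.rt_le_old _ _ k

theorem mapI_mono {A B : R.Inf} (h : A ≤ B) : q.mapI A ≤ q.mapI B := by
  rw [Sp.Inf.le_def] at h ⊢
  exact squeeze_zero (fun k => rt_nonneg _ _ k) (fun k => q.rt_le A.1 B.1 k) h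

/-- the map of entropy lattices -/
def map : R.L → K.L := Quotient.map q.mapI (by
  intro A B hAB
  exact ⟨q.mapI_mono hAB.1, q.mapI_mono hAB.2⟩)

theorem map_cl (A : R.Inf) : q.map (cl A) = cl (q.mapI A) := rfl

theorem map_mono {x y : R.L} (h : x ≤ y) : q.map x ≤ q.map y := by
  induction x using cl_ind
  induction y using cl_ind
  exact q.mapI_mono h

theorem map_sup (x y : R.L) : q.map (x ⊔ y) = q.map x ⊔ q.map y := by
  induction x using cl_ind
  induction y using cl_ind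
  rfl

theorem map_bot : q.map ⊥ = ⊥ := by
  rw [← cl_bot, map_cl, ← cl_bot]
  exact congrArg cl (Subtype.ext q.pj.pb_tr)

/-- entropies over the finer base are smaller -/
theorem h_map_le (x y : R.L) : h (q.map x) (q.map y) ≤ h x y := by
  induction x using cl_ind with | _ A
  induction y using cl_ind with | _ B
  rw [map_cl, map_cl, h_cl, h_cl]
  exact ul_mono (UB_rt _ _) (UB_rt _ _) (Eventually.of_forall fun k => q.rt_le A.1 B.1 k)

theorem H_map_le (x : R.L) : H (q.map x) ≤ H x := by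
  have := q.h_map_le x ⊥
  rwa [q.map_bot, h_bot, h_bot] at this

include q in
theorem sub {L : ℕ → ℝ} (hL : R.Sub L) : K.Sub L := by
  refine ⟨hL.1, ?_⟩
  refine hL.2.congr fun k => ?_
  rw [q.hn k]

include q in
theorem sub' {L : ℕ → ℝ} (hL : K.Sub L) : R.Sub L := by
  refine ⟨hL.1, ?_⟩
  refine hL.2.congr fun k => ?_
  rw [q.hn k]

include q in
theorem dl (r : ℝ) (k : ℕ) : K.dl r k = R.dl r k := by
  unfold Sp.dl
  rw [q.hn k]

/-- tame functions -/
def tr : TR R →+* TR K where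
  toFun f := ⟨fun k ω => f.1 k (q.π k ω), by
    obtain ⟨L, hL, h⟩ := f.2
    refine ⟨L, q.sub hL, ?_⟩
    filter_upwards [h] with k hk ω hω
    exact hk _ (q.supp k ω hω)⟩
  map_one' := rfl
  map_mul' _ _ := rfl
  map_zero' := rfl
  map_add' _ _ := rfl

theorem tr_ev (f : TR R) (k : ℕ) (ω : (K.F k).Ω) : TR.ev (q.tr f) k ω = TR.ev f k (q.π k ω) := rfl

theorem tr_dg (f : TR R) (r : ℝ) : TR.dg (q.tr f) r = q.map (TR.dg f r) := by
  unfold TR.dg
  rw [VV.dg, VV.dg, io_eq ((TR.vec fun _ : Fin 1 => f).bdd r), io_eq ((TR.vec fun _ : Fin 1 => q.tr f).bdd r), map_cl]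
  congr 1
  apply Subtype.ext
  funext k
  ext ω ω'
  show (TR.vec fun _ : Fin 1 => q.tr f).cellv r k ω = (TR.vec fun _ : Fin 1 => q.tr f).cellv r k ω' ↔
    (TR.vec fun _ : Fin 1 => f).cellv r k (q.π k ω) = (TR.vec fun _ : Fin 1 => f).cellv r k (q.π k ω')
  have e : ∀ ω, (TR.vec fun _ : Fin 1 => q.tr f).cellv r k ω = (TR.vec fun _ : Fin 1 => f).cellv r k (q.π k ω) := by
    intro ω
    unfold VV.cellv
    rw [q.dl r k]
    rfl
  rw [e, e]

theorem typ {E : ∀ k, (R.F k).Ω → Prop} (hE : Typ E) : Typ (S := K) (fun k ω => E k (q.π k ω)) :=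
  (q.pj.typ hE : Typ (S := q.old) (fun k ω => E k (q.pj.π k ω)))

theorem ag {r : ℝ} {f g : TR R} (h : TR.Ag r f g) : TR.Ag r (q.tr f) (q.tr g) := by
  obtain ⟨E, L, hE, hL, hh⟩ := h
  refine ⟨fun k ω => E k (q.π k ω), L, q.typ hE, q.sub hL, ?_⟩
  filter_upwards [hh] with k hk ω hω hEω
  have := hk (q.π k ω) (q.supp k ω hω) hEω
  rw [← q.dl r k] at this
  exact this

/-- functions to full precision -/
def qs : QS R →+* QS K :=
  Ideal.Quotient.lift (TR.Idl R) ((QS.mk (S := K)).comp q.tr) (by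
    intro f hf
    have h1 : TR.Ag 1 (q.tr f) (q.tr 0) := q.ag hf
    rw [map_zero] at h1
    show QS.mk (q.tr f) = 0
    rw [← map_zero QS.mk]
    exact QS.mk_eq.mpr h1)

theorem qs_mk (f : TR R) : q.qs (QS.mk f) = QS.mk (q.tr f) := rfl

theorem qs_dg (f : QS R) (r : ℝ) : QS.dg (q.qs f) r = q.map (QS.dg f r) := by
  obtain ⟨f, rfl⟩ := QS.mk_surj f
  rw [qs_mk]
  rcases le_total r 1 with hr | hr
  · rw [QS.dg_mk _ hr, QS.dg_mk _ hr, q.tr_dg]
  · rw [QS.dg_cut _ hr, QS.dg_cut _ hr, QS.dg_mk _ le_rfl, QS.dg_mk _ le_rfl, q.tr_dg]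

end Rb

/-- a finer base partition -/
def Rb.chg {S : Sp} {Z Z' : ∀ k, Setoid (S.F k).Ω} (hZ : ∀ k, Z' k ≤ Z k) (c : ℝ) (hc : 0 < c) :
    Rb (S.chg Z' c hc) (S.chg Z c hc) where
  π := fun _ ω => ω
  law := fun k => push_id (S.F k).μ
  hZ := fun k _ _ _ _ h => ⟨hZ k h.1, h.2⟩
  hn := fun _ => rfl

end

end Pool.Agent.Helper68.ST2
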