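import Pool.Agent.Helper68.ST2.Wn

/-! Relations between the rescaled functions of a window and of a finer window. -/

set_option autoImplicit false

namespace Pool.Agent.Helper68.ST2

open Finset Filter Topology Pool.Agent.Helper69.RK Pool.Agent.Helper40.EL Pool.Agent.Helper31.EC
open Pool.Agent.Helper31.EC.Sp Pool.Agent.Helper60.CS
open Pool.Agent.Helper97.SL (cdl ev_cdl cdl_dg)

noncomputable section

variable {Q : Sp}

theorem dl_split (r s : ℝ) (k : ℕ) : Q.dl s k = Q.dl r k * Q.dl (s - r) k := by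
  rw [← dl_add]
  congr 1
  ring

/-- cancellation of a small constant -/
theorem te_cancel {E : ∀ k, (Q.F k).Ω → Prop} (hE : Typ E) {f g : TR Q} (r : ℝ)
    (h : ∀ k ω, (Q.F k).μ ω ≠ 0 → E k ω → Q.dl r k * TR.ev f k ω = Q.dl r k * TR.ev g k ω) : TR.Te f g :=
  ⟨E, hE, Eventually.of_forall fun k ω hω he => mul_left_cancel₀ (Q.dl_pos r k).ne' (h k ω hω he)⟩

theorem dg_nonpos' (f : TR Q) {r : ℝ} (hr : r ≤ 0) : TR.dg f r = ⊥ := VV.dg_nonpos _ hr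

theorem Mz.add_dg {V : ∀ k, Setoid (Q.F k).Ω} {f g : TR Q} (hf : Mz V f) (e : ℝ) (he : 0 < e) (s : ℝ) :
    chgL V e he (TR.dg (f + g) s) = chgL V e he (TR.dg g s) := by
  have h1 := hf.neg.sub_dg (f := g) e he s
  rw [← h1]
  congr 2
  exact tr_ext fun k ω => by simp only [TR.ev_add, TR.ev_sub, TR.ev_neg]; ring

theorem cdl_mul_dg' (f : TR Q) (r s : ℝ) (hs : 0 ≤ s) : TR.dg (cdl s hs * f) r = TR.dg f (r - s) := by
  have h1 := dg_cdl_mul f (r - s) s hs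
  rw [sub_add_cancel] at h1
  exact h1

namespace Wn

variable {L : Ln Q} {ξ : TR Q} {u : ℝ} {V V' : ∀ k, Setoid (Q.F k).Ω} {c c' r r' : ℝ}
  (W : Wn Q L ξ u V c r) (W' : Wn Q L ξ u V' c' r')

/-! ### the constants -/

def K1 : ℕ → ℝ := fun k => W.K k + W'.K k
def K2 : ℕ → ℝ := fun k => W.K k + W'.K k + (W.K k + W'.K k) * W.K k

theorem hK1 : Q.Sub (K1 W W') := W.hK.add W'.hK
theorem hK2 : Q.Sub (K2 W W') := (W.hK.add W'.hK).add ((W.hK.add W'.hK).mul W.hK)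

/-- the centre of the height in the coordinate of the coarse window -/
def T0 : TR Q := dq (W'.τ - W.τ) c (K1 W W') (hK1 W W')
/-- the centre of the position -/
def B0 : TR Q := dq (W'.φ - W.φ - (W'.τ - W.τ) * ξ) (c + u) (K2 W W') (hK2 W W')

section rel

variable (hc : c ≤ c')

include hc in
theorem sm_τ : Sm (K1 W W') c (W'.τ - W.τ) := by
  have h1 := W.bt.sub (W'.bt.anti W'.hK hc)
  have e1 : L.t - W.τ - (L.t - W'.τ) = W'.τ - W.τ :=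
    tr_ext fun k ω => by simp only [TR.ev_sub]; ring
  rwa [e1] at h1

include hc in
theorem sm_φ : Sm (K2 W W') (c + u) (W'.φ - W.φ - (W'.τ - W.τ) * ξ) := by
  have h1 := (W.ba.sub (W'.ba.anti W'.hK (by linarith))).add (Sm.mul (hK1 W W') (sm_τ W W' hc) W.bx)
  have e1 : L.a + W.τ * L.x - W.φ - (L.a + W'.τ * L.x - W'.φ) + (W'.τ - W.τ) * (L.x - ξ) =
      W'.φ - W.φ - (W'.τ - W.τ) * ξ :=
    tr_ext fun k ω => by simp only [TR.ev_add, TR.ev_sub, TR.ev_mul]; ring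
  rwa [e1] at h1

/-- the event of the relations of both windows -/
def EV (k : ℕ) (ω : (Q.F k).Ω) : Prop :=
    (TR.ev (W'.τ - W.τ) k ω = Q.dl c k * TR.ev (T0 W W') k ω ∧
      TR.ev (W'.φ - W.φ - (W'.τ - W.τ) * ξ) k ω = Q.dl (c + u) k * TR.ev (B0 W W') k ω) ∧
    (TR.ev (L.t - W.τ) k ω = Q.dl c k * TR.ev W.T k ω ∧
      TR.ev (L.x - ξ) k ω = Q.dl u k * TR.ev W.X k ω ∧
      TR.ev (L.a + W.τ * L.x - W.φ) k ω = Q.dl (c + u) k * TR.ev W.B k ω ∧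
      TR.ev (L.b + W.τ * L.y - W.α - W.β * W.τ - W.γ * (L.a + W.τ * L.x)) k ω = Q.dl r k * TR.ev W.G0 k ω ∧
      TR.ev (L.y - W.β - W.γ * L.x) k ω = Q.dl (r - c) k * TR.ev W.G1 k ω) ∧
    (TR.ev (L.t - W'.τ) k ω = Q.dl c' k * TR.ev W'.T k ω ∧
      TR.ev (L.x - ξ) k ω = Q.dl u k * TR.ev W'.X k ω ∧
      TR.ev (L.a + W'.τ * L.x - W'.φ) k ω = Q.dl (c' + u) k * TR.ev W'.B k ω ∧
      TR.ev (L.b + W'.τ * L.y - W'.α - W'.β * W'.τ - W'.γ * (L.a + W'.τ * L.x)) k ω = Q.dl r' k * TR.ev W'.G0 k ω ∧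
      TR.ev (L.y - W'.β - W'.γ * L.x) k ω = Q.dl (r' - c') k * TR.ev W'.G1 k ω)

include hc in
/-- the relations of both windows on one typical event -/
theorem typ_two : Typ (S := Q) (EV W W') :=
  ((dq_typ (hK1 W W') (sm_τ W W' hc)).and (dq_typ (hK2 W W') (sm_φ W W' hc))).and (W.typ_all.and W'.typ_all)

include hc in
/-- the height -/
theorem T_rel : TR.Te W.T (T0 W W' + cdl (c' - c) (sub_nonneg.mpr hc) * W'.T) := by
  refine te_cancel (typ_two W W' hc) c fun k ω _ h => ?_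
  obtain ⟨⟨h1, -⟩, ⟨h2, -⟩, h3, -⟩ := h
  rw [TR.ev_add, TR.ev_mul, ev_cdl, mul_add, ← h1, ← h2, ← mul_assoc, ← dl_split, ← h3]
  simp only [TR.ev_sub]
  ring

include hc in
/-- the direction -/
theorem X_rel : TR.Te W.X W'.X := by
  refine te_cancel (typ_two W W' hc) u fun k ω _ h => ?_
  obtain ⟨-, ⟨-, h2, -⟩, -, h3, -⟩ := h
  rw [← h2, ← h3]

include hc in
/-- the position -/
theorem B_rel : TR.Te W.B (B0 W W' + cdl (c' - c) (sub_nonneg.mpr hc) * W'.B - T0 W W' * W.X) := by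
  refine te_cancel (typ_two W W' hc) (c + u) fun k ω _ h => ?_
  obtain ⟨⟨h1, h1'⟩, ⟨-, h2, h2', -⟩, -, -, h3, -⟩ := h
  have e1 : Q.dl (c' + u) k = Q.dl (c + u) k * Q.dl (c' - c) k := by rw [← dl_add]; congr 1; ring
  rw [TR.ev_sub, TR.ev_add, TR.ev_mul, TR.ev_mul, ev_cdl]
  rw [e1] at h3
  have e2 : Q.dl (c + u) k * (TR.ev (B0 W W') k ω + Q.dl (c' - c) k * TR.ev W'.B k ω -
      TR.ev (T0 W W') k ω * TR.ev W.X k ω) = Q.dl (c + u) k * TR.ev (B0 W W') k ω +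
      Q.dl (c + u) k * Q.dl (c' - c) k * TR.ev W'.B k ω - (Q.dl c k * TR.ev (T0 W W') k ω) *
        (Q.dl u k * TR.ev W.X k ω) := by
    rw [dl_add Q c u]; ring
  rw [e2, ← h1', ← h3, ← h1, ← h2, ← h2']
  simp only [TR.ev_sub, TR.ev_add, TR.ev_mul]
  ring

include hc in
/-- the point of the base -/
theorem Y_rel : TR.Te W.Y (B0 W W' + cdl (c' - c) (sub_nonneg.mpr hc) * W'.Y) := by
  have h1 : TR.Te W.Y ((B0 W W' + cdl (c' - c) (sub_nonneg.mpr hc) * W'.B - T0 W W' * W.X) +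
      (T0 W W' + cdl (c' - c) (sub_nonneg.mpr hc) * W'.T) * W.X) :=
    (B_rel W W' hc).add ((T_rel W W' hc).mul (TR.Te.refl _))
  refine h1.trans ?_
  have e1 : (B0 W W' + cdl (c' - c) (sub_nonneg.mpr hc) * W'.B - T0 W W' * W.X) +
      (T0 W W' + cdl (c' - c) (sub_nonneg.mpr hc) * W'.T) * W.X =
      B0 W W' + cdl (c' - c) (sub_nonneg.mpr hc) * (W'.B + W'.T * W.X) :=
    tr_ext fun k ω => by simp only [TR.ev_add, TR.ev_sub, TR.ev_mul]; ring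
  rw [e1]
  exact (TR.Te.refl _).add ((TR.Te.refl _).mul ((TR.Te.refl _).add ((TR.Te.refl _).mul (X_rel W W' hc))))

/-! ### the measurable coefficients -/

theorem T0_mz (hV : ∀ k, V' k ≤ V k) : Mz V' (T0 W W') := dq_mz _ (W'.mτ.sub (W.mτ.mono hV))

theorem B0_mz (hV : ∀ k, V' k ≤ V k) : Mz V' (B0 W W') :=
  dq_mz _ ((W'.mφ.sub (W.mφ.mono hV)).sub ((W'.mτ.sub (W.mτ.mono hV)).mul (W.mξ.mono hV)))

end rel

/-! ### digits over the label of the fine window -/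

section chg

variable (hc : c ≤ c') (hV : ∀ k, V' k ≤ V k) (e : ℝ) (he : 0 < e)

include hc hV in
theorem T_chg (v : ℝ) : chgL V' e he (TR.dg W.T v) = chgL V' e he (TR.dg W'.T (v - (c' - c))) := by
  rw [(T_rel W W' hc).dg_eq, (T0_mz W W' hV).add_dg, cdl_mul_dg']

include hc in
theorem X_chg (v : ℝ) : TR.dg W.X v = TR.dg W'.X v := (X_rel W W' hc).dg_eq v

include hc hV in
theorem Y_chg (v : ℝ) : chgL V' e he (TR.dg W.Y v) = chgL V' e he (TR.dg W'.Y (v - (c' - c))) := by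
  rw [(Y_rel W W' hc).dg_eq, (B0_mz W W' hV).add_dg, cdl_mul_dg']

include hc hV in
theorem B_chg (v : ℝ) {A : (Q.chg V' e he).L} (hB : chgL V' e he (TR.dg W'.B (v - (c' - c))) ≤ A)
    (hX : chgL V' e he (TR.dg W'.X v) ≤ A) : chgL V' e he (TR.dg W.B v) ≤ A := by
  rw [(B_rel W W' hc).dg_eq]
  refine chgL_sub_le V' e he ?_ (chgL_mul_le V' e he (T0_mz W W' hV).le ?_)
  · rw [(B0_mz W W' hV).add_dg, cdl_mul_dg']
    exact hB
  · rw [X_chg W W' hc]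
    exact hX

end chg

/-! ### the top coordinate, if the slopes of the sheets of both windows are close -/

section top

variable (Kg : ℕ → ℝ) (hKg : Q.Sub Kg)

def K3 : ℕ → ℝ := fun k => W.K k + W'.K k + Kg k * W.K k
def K4 : ℕ → ℝ := fun k => W.K k + (W.K k + W'.K k) * W.K k + (W'.K k + Kg k * W'.K k)

include hKg in
theorem hK3 : Q.Sub (K3 W W' Kg) := (W.hK.add W'.hK).add (hKg.mul W.hK)

include hKg in
theorem hK4 : Q.Sub (K4 W W' Kg) := (W.hK.add ((W.hK.add W'.hK).mul W.hK)).add (W'.hK.add (hKg.mul W'.hK))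

def A2 : TR Q := dq (W'.γ - W.γ) (r - c - u) Kg hKg
def A1 : TR Q := dq (W'.β - W.β + (W'.γ - W.γ) * ξ) (r - c) (K3 W W' Kg) (hK3 W W' Kg hKg)
def G00 : TR Q := dq (W'.α - W.α + (W'.β - W.β) * W'.τ + (W'.γ - W.γ) * W'.φ) r (K4 W W' Kg) (hK4 W W' Kg hKg)

theorem A2_mz (hV : ∀ k, V' k ≤ V k) : Mz V' (A2 W W' Kg hKg) := dq_mz _ (W'.mγ.sub (W.mγ.mono hV))

theorem A1_mz (hV : ∀ k, V' k ≤ V k) : Mz V' (A1 W W' Kg hKg) :=
  dq_mz _ ((W'.mβ.sub (W.mβ.mono hV)).add ((W'.mγ.sub (W.mγ.mono hV)).mul (W.mξ.mono hV)))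

theorem G00_mz (hV : ∀ k, V' k ≤ V k) : Mz V' (G00 W W' Kg hKg) :=
  dq_mz _ (((W'.mα.sub (W.mα.mono hV)).add ((W'.mβ.sub (W.mβ.mono hV)).mul W'.mτ)).add
    ((W'.mγ.sub (W.mγ.mono hV)).mul W'.mφ))

variable (hc : c ≤ c') (hr : r - c ≤ r' - c') (hG : Sm Kg (r - c - u) (W'.γ - W.γ))

include hr hKg hG in
theorem sm_A1 : Sm (K3 W W' Kg) (r - c) (W'.β - W.β + (W'.γ - W.γ) * ξ) := by
  have h1 : Sm (fun k => W.K k + W'.K k + Kg k * W.K k) (r - c)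
      ((L.y - W.β - W.γ * L.x) - (L.y - W'.β - W'.γ * L.x) - (W'.γ - W.γ) * (L.x - ξ)) := by
    refine (W.b1.sub (W'.b1.anti W'.hK hr)).sub ?_
    have h2 := Sm.mul hKg hG W.bx
    have e2 : r - c - u + u = r - c := by ring
    rwa [e2] at h2
  have e1 : (L.y - W.β - W.γ * L.x) - (L.y - W'.β - W'.γ * L.x) - (W'.γ - W.γ) * (L.x - ξ) =
      W'.β - W.β + (W'.γ - W.γ) * ξ :=
    tr_ext fun k ω => by simp only [TR.ev_add, TR.ev_sub, TR.ev_mul]; ring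
  rwa [e1] at h1

include hc hr hKg hG in
theorem sm_G00 : Sm (K4 W W' Kg) r (W'.α - W.α + (W'.β - W.β) * W'.τ + (W'.γ - W.γ) * W'.φ) := by
  have h1 : Sm (fun k => (W.K k + W'.K k) * W.K k) r ((W'.τ - W.τ) * (L.y - W.β - W.γ * L.x)) := by
    have h2 := Sm.mul (hK1 W W') (sm_τ W W' hc) W.b1
    have e2 : c + (r - c) = r := by ring
    rwa [e2] at h2
  have h3 : Sm (fun k => Kg k * W'.K k) r ((W'.γ - W.γ) * (L.a + W'.τ * L.x - W'.φ)) :=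
    (Sm.mul hKg hG W'.ba).anti (hKg.mul W'.hK) (by linarith)
  have h4 := (W.b0.add h1).sub ((W'.b0.anti W'.hK (by linarith : r ≤ r')).add h3)
  have e1 : (L.b + W.τ * L.y - W.α - W.β * W.τ - W.γ * (L.a + W.τ * L.x)) + (W'.τ - W.τ) * (L.y - W.β - W.γ * L.x) -
      ((L.b + W'.τ * L.y - W'.α - W'.β * W'.τ - W'.γ * (L.a + W'.τ * L.x)) +
        (W'.γ - W.γ) * (L.a + W'.τ * L.x - W'.φ)) =
      W'.α - W.α + (W'.β - W.β) * W'.τ + (W'.γ - W.γ) * W'.φ :=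
    tr_ext fun k ω => by simp only [TR.ev_add, TR.ev_sub, TR.ev_mul]; ring
  rwa [e1] at h4

/-- the relations of the top coordinates -/
def EV' (k : ℕ) (ω : (Q.F k).Ω) : Prop :=
  TR.ev (W'.γ - W.γ) k ω = Q.dl (r - c - u) k * TR.ev (A2 W W' Kg hKg) k ω ∧
  TR.ev (W'.β - W.β + (W'.γ - W.γ) * ξ) k ω = Q.dl (r - c) k * TR.ev (A1 W W' Kg hKg) k ω ∧
  TR.ev (W'.α - W.α + (W'.β - W.β) * W'.τ + (W'.γ - W.γ) * W'.φ) k ω = Q.dl r k * TR.ev (G00 W W' Kg hKg) k ω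

include hc hr hG in
theorem typ_top : Typ (S := Q) (EV' W W' Kg hKg) :=
  (dq_typ hKg hG).and ((dq_typ _ (sm_A1 W W' Kg hKg hr hG)).and (dq_typ _ (sm_G00 W W' Kg hKg hc hr hG)))

include hc hr hG in
/-- the slope above the sheet -/
theorem G1_rel : TR.Te W.G1 (A1 W W' Kg hKg + A2 W W' Kg hKg * W.X +
    cdl (r' - c' - (r - c)) (sub_nonneg.mpr hr) * W'.G1) := by
  refine te_cancel (Typ.and (typ_two W W' hc) (typ_top W W' Kg hKg hc hr hG)) (r - c) fun k ω _ h => ?_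
  obtain ⟨⟨-, ⟨-, h2, -, -, h3⟩, -, -, -, -, h4⟩, h5, h6, -⟩ := h
  rw [TR.ev_add, TR.ev_add, TR.ev_mul, TR.ev_mul, ev_cdl]
  have e2 : Q.dl (r - c) k * (TR.ev (A1 W W' Kg hKg) k ω + TR.ev (A2 W W' Kg hKg) k ω * TR.ev W.X k ω +
      Q.dl (r' - c' - (r - c)) k * TR.ev W'.G1 k ω) = Q.dl (r - c) k * TR.ev (A1 W W' Kg hKg) k ω +
      (Q.dl (r - c - u) k * TR.ev (A2 W W' Kg hKg) k ω) * (Q.dl u k * TR.ev W.X k ω) +
      (Q.dl (r - c) k * Q.dl (r' - c' - (r - c)) k) * TR.ev W'.G1 k ω := by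
    have e3 : Q.dl (r - c) k = Q.dl (r - c - u) k * Q.dl u k := by rw [← dl_add]; congr 1; ring
    rw [e3]; ring
  rw [e2, ← h5, ← h6, ← h2, ← dl_split, ← h4, ← h3]
  simp only [TR.ev_sub, TR.ev_add, TR.ev_mul]
  ring

theorem r_le (hc : c ≤ c') (hr : r - c ≤ r' - c') : 0 ≤ r' - r := by linarith

include hG in
/-- the top coordinate above the sheet -/
theorem Z_rel : TR.Te W.Z (G00 W W' Kg hKg + cdl (c' - c) (sub_nonneg.mpr hc) *
    (A1 W W' Kg hKg * W'.T + A2 W W' Kg hKg * W'.Y) + cdl (r' - r) (r_le hc hr) * W'.Z) := by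
  refine te_cancel (Typ.and (typ_two W W' hc) (typ_top W W' Kg hKg hc hr hG)) r fun k ω _ h => ?_
  obtain ⟨⟨-, ⟨k1, k2, k3, k4, k5⟩, l1, l2, l3, l4, l5⟩, h5, h6, h7⟩ := h
  have eZ : TR.ev W.Z k ω = TR.ev W.G0 k ω + TR.ev W.G1 k ω * TR.ev W.T k ω := rfl
  have eZ' : TR.ev W'.Z k ω = TR.ev W'.G0 k ω + TR.ev W'.G1 k ω * TR.ev W'.T k ω := rfl
  have eY' : TR.ev W'.Y k ω = TR.ev W'.B k ω + TR.ev W'.T k ω * TR.ev W'.X k ω := rfl
  have f1 : Q.dl r k = Q.dl (r - c) k * Q.dl c k := by rw [← dl_add]; congr 1; ring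
  have f2 : Q.dl r' k = Q.dl (r' - c') k * Q.dl c' k := by rw [← dl_add]; congr 1; ring
  have f3 : Q.dl r k * Q.dl (c' - c) k = Q.dl (r - c) k * Q.dl c' k := by
    rw [← dl_add, ← dl_add]; congr 1; ring
  have f4 : Q.dl r k * Q.dl (c' - c) k = Q.dl (r - c - u) k * Q.dl (c' + u) k := by
    rw [← dl_add, ← dl_add]; congr 1; ring
  have f5 : Q.dl r k * Q.dl (r' - r) k = Q.dl r' k := (dl_split r r' k).symm
  have f6 : Q.dl (c' + u) k = Q.dl c' k * Q.dl u k := dl_add Q c' u k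
  have left : Q.dl r k * TR.ev W.Z k ω = Q.dl r k * TR.ev W.G0 k ω + (Q.dl (r - c) k * TR.ev W.G1 k ω) *
      (Q.dl c k * TR.ev W.T k ω) := by
    rw [eZ, f1]; ring
  have right : Q.dl r k * TR.ev (G00 W W' Kg hKg + cdl (c' - c) (sub_nonneg.mpr hc) *
      (A1 W W' Kg hKg * W'.T + A2 W W' Kg hKg * W'.Y) + cdl (r' - r) (r_le hc hr) * W'.Z) k ω =
      Q.dl r k * TR.ev (G00 W W' Kg hKg) k ω +
      (Q.dl (r - c) k * TR.ev (A1 W W' Kg hKg) k ω) * (Q.dl c' k * TR.ev W'.T k ω) +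
      (Q.dl (r - c - u) k * TR.ev (A2 W W' Kg hKg) k ω) *
        (Q.dl (c' + u) k * TR.ev W'.B k ω + (Q.dl c' k * TR.ev W'.T k ω) * (Q.dl u k * TR.ev W'.X k ω)) +
      (Q.dl r' k * TR.ev W'.G0 k ω + (Q.dl (r' - c') k * TR.ev W'.G1 k ω) * (Q.dl c' k * TR.ev W'.T k ω)) := by
    simp only [TR.ev_add, TR.ev_mul, ev_cdl]
    rw [eZ', eY']
    have g1 : Q.dl r k * (TR.ev (G00 W W' Kg hKg) k ω + Q.dl (c' - c) k *
        (TR.ev (A1 W W' Kg hKg) k ω * TR.ev W'.T k ω + TR.ev (A2 W W' Kg hKg) k ω *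
          (TR.ev W'.B k ω + TR.ev W'.T k ω * TR.ev W'.X k ω)) +
        Q.dl (r' - r) k * (TR.ev W'.G0 k ω + TR.ev W'.G1 k ω * TR.ev W'.T k ω)) =
        Q.dl r k * TR.ev (G00 W W' Kg hKg) k ω +
        (Q.dl r k * Q.dl (c' - c) k) * (TR.ev (A1 W W' Kg hKg) k ω * TR.ev W'.T k ω) +
        (Q.dl r k * Q.dl (c' - c) k) * (TR.ev (A2 W W' Kg hKg) k ω *
          (TR.ev W'.B k ω + TR.ev W'.T k ω * TR.ev W'.X k ω)) +
        (Q.dl r k * Q.dl (r' - r) k) * (TR.ev W'.G0 k ω + TR.ev W'.G1 k ω * TR.ev W'.T k ω) := by ring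
    rw [g1, f5]
    have g2 : Q.dl r k * Q.dl (c' - c) k * (TR.ev (A1 W W' Kg hKg) k ω * TR.ev W'.T k ω) =
        (Q.dl (r - c) k * TR.ev (A1 W W' Kg hKg) k ω) * (Q.dl c' k * TR.ev W'.T k ω) := by
      rw [f3]; ring
    have g3 : Q.dl r k * Q.dl (c' - c) k * (TR.ev (A2 W W' Kg hKg) k ω *
          (TR.ev W'.B k ω + TR.ev W'.T k ω * TR.ev W'.X k ω)) =
        (Q.dl (r - c - u) k * TR.ev (A2 W W' Kg hKg) k ω) *
        (Q.dl (c' + u) k * TR.ev W'.B k ω + (Q.dl c' k * TR.ev W'.T k ω) * (Q.dl u k * TR.ev W'.X k ω)) := by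
      rw [f4, f6]; ring
    have g4 : Q.dl r' k * (TR.ev W'.G0 k ω + TR.ev W'.G1 k ω * TR.ev W'.T k ω) =
        (Q.dl r' k * TR.ev W'.G0 k ω + (Q.dl (r' - c') k * TR.ev W'.G1 k ω) * (Q.dl c' k * TR.ev W'.T k ω)) := by
      rw [f2]; ring
    rw [g2, g3, g4]
  rw [left, right, ← k4, ← k5, ← k1, ← h7, ← h6, ← h5, ← l1, ← l2, ← l3, ← l4, ← l5]
  simp only [TR.ev_sub, TR.ev_add, TR.ev_mul]
  ring

include hKg hc hr hG in
/-- the digits of the top coordinate over the label of the fine window -/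
theorem Z_chg (hV : ∀ k, V' k ≤ V k) (e : ℝ) (he : 0 < e) {v : ℝ} (hv : v ≤ r' - r) {A : (Q.chg V' e he).L}
    (hT : chgL V' e he (TR.dg W'.T (v - (c' - c))) ≤ A) (hY : chgL V' e he (TR.dg W'.Y (v - (c' - c))) ≤ A) :
    chgL V' e he (TR.dg W.Z v) ≤ A := by
  rw [(Z_rel W W' Kg hKg hc hr hG).dg_eq]
  refine chgL_add_le V' e he ?_ ?_
  · rw [(G00_mz W W' Kg hKg hV).add_dg, cdl_mul_dg']
    exact chgL_add_le V' e he (chgL_mul_le V' e he (A1_mz W W' Kg hKg hV).le hT)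
      (chgL_mul_le V' e he (A2_mz W W' Kg hKg hV).le hY)
  · rw [cdl_mul_dg', dg_nonpos' _ (by linarith)]
    rw [chgL_bot]
    exact bot_le

include hKg hc hr hG in
/-- the first digits of the top coordinate are known to the label of the fine window -/
theorem Z_bot (hV : ∀ k, V' k ≤ V k) (e : ℝ) (he : 0 < e) {v : ℝ} (hv : v ≤ r' - r) (hv' : v ≤ c' - c) :
    chgL V' e he (TR.dg W.Z v) = ⊥ := by
  apply le_bot_iff.mp
  apply Z_chg W W' Kg hKg hc hr hG hV e he hv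
  · rw [dg_nonpos' _ (by linarith), chgL_bot]
  · rw [dg_nonpos' _ (by linarith), chgL_bot]

end top


end Wn

end

end Pool.Agent.Helper68.ST2
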