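import Pool.Agent.Helper68.ST2.Rb
import Pool.Agent.Helper97.SL.Qs

/-! Tools for tame functions: functions of the base, products with small functions, division by constants, functions
of a base partition. -/

set_option autoImplicit false

namespace Pool.Agent.Helper68.ST2

open Finset Filter Topology Pool.Agent.Helper69.RK Pool.Agent.Helper40.EL Pool.Agent.Helper31.EC
open Pool.Agent.Helper31.EC.Sp Pool.Agent.Helper60.CS
open Pool.Agent.Helper97.SL (cdl ev_cdl cdl_dg)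

noncomputable section

variable {R : Sp}

/-- functions of the base -/
def BM (g : TR R) : Prop :=
  ∀ᶠ k in UF, ∀ ω ω', (R.F k).μ ω ≠ 0 → (R.F k).μ ω' ≠ 0 → (R.F k).Z ω ω' → TR.ev g k ω = TR.ev g k ω'

namespace BM

variable {f g : TR R}

theorem add (hf : BM f) (hg : BM g) : BM (f + g) := by
  filter_upwards [hf, hg] with k a b ω ω' h h' z
  rw [TR.ev_add, TR.ev_add, a ω ω' h h' z, b ω ω' h h' z]

theorem mul (hf : BM f) (hg : BM g) : BM (f * g) := by
  filter_upwards [hf, hg] with k a b ω ω' h h' z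
  rw [TR.ev_mul, TR.ev_mul, a ω ω' h h' z, b ω ω' h h' z]

theorem neg (hf : BM f) : BM (-f) := by
  filter_upwards [hf] with k a ω ω' h h' z
  rw [TR.ev_neg, TR.ev_neg, a ω ω' h h' z]

theorem sub (hf : BM f) (hg : BM g) : BM (f - g) := by
  filter_upwards [hf, hg] with k a b ω ω' h h' z
  rw [TR.ev_sub, TR.ev_sub, a ω ω' h h' z, b ω ω' h h' z]

theorem zero : BM (0 : TR R) := Eventually.of_forall fun _ _ _ _ _ _ => rfl

theorem one : BM (1 : TR R) := Eventually.of_forall fun _ _ _ _ _ _ => rfl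

theorem cdl (r : ℝ) (hr : 0 ≤ r) : BM (cdl (S := R) r hr) := Eventually.of_forall fun _ _ _ _ _ _ => rfl

theorem dg (hg : BM g) (r : ℝ) : TR.dg g r = ⊥ := by
  apply le_antisymm _ bot_le
  rw [← cl_bot]
  apply TR.dg_le_cl g r _ (fun _ _ => True) Typ_true (fun _ => 0) (R.Sub_const le_rfl)
  filter_upwards [hg] with k hk ω ω' h h' _ _ z _
  rw [hk ω ω' h h' z, sub_self, abs_zero]
  simp

theorem rb {K : Sp} (q : Rb K R) (hg : BM g) : BM (q.tr g) := by
  filter_upwards [hg] with k hk ω ω' h h' z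
  exact hk _ _ (q.supp k ω h) (q.supp k ω' h') (q.hZ k ω ω' h h' z)

theorem pj {K : Sp} (q : Pj K R) (hg : BM g) : BM (q.tr g) := by
  filter_upwards [hg] with k hk ω ω' h h' z
  exact hk _ _ (q.supp k ω h) (q.supp k ω' h') ((q.hZ k ω ω' h h').mp z)

end BM

/-- products with small functions of the base -/
theorem dg_mul_small (f g : TR R) (hg : BM g) {r s : ℝ} (hs : TR.Ag s g 0) : TR.dg (f * g) (r + s) ≤ TR.dg f r := by
  obtain ⟨E, L, hE, hL, hh⟩ := hs
  apply VV.dg_le_dg (TR.vec fun _ : Fin 1 => f * g) (TR.vec fun _ : Fin 1 => f) _ _ E hE L hL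
  filter_upwards [hg, hh] with k hg hh ω ω' a b e e' z q i
  have h1 : |TR.ev f k ω - TR.ev f k ω'| ≤ R.dl r k := q 0
  show |TR.ev (f * g) k ω - TR.ev (f * g) k ω'| ≤ _
  rw [TR.ev_mul, TR.ev_mul, ← hg ω ω' a b z, ← sub_mul, abs_mul]
  have h2 := hh ω a e
  rw [TR.ev_zero, sub_zero] at h2
  calc |TR.ev f k ω - TR.ev f k ω'| * |TR.ev g k ω| ≤ R.dl r k * (L k * R.dl s k) :=
        mul_le_mul h1 h2 (abs_nonneg _) (R.dl_pos r k).le
    _ = L k * R.dl (r + s) k := by rw [dl_add]; ring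

/-- products with small constants -/
theorem dg_cdl_mul (f : TR R) (r s : ℝ) (hs : 0 ≤ s) : TR.dg (cdl s hs * f) (r + s) = TR.dg f r := by
  apply le_antisymm
  · apply VV.dg_le_dg (TR.vec fun _ : Fin 1 => cdl s hs * f) (TR.vec fun _ : Fin 1 => f) _ _ (fun _ _ => True)
      Typ_true (fun _ => 1) (R.Sub_const zero_le_one)
    refine Eventually.of_forall fun k ω ω' a b e e' z q i => ?_
    have h1 : |TR.ev f k ω - TR.ev f k ω'| ≤ R.dl r k := q 0
    show |TR.ev (cdl s hs * f) k ω - TR.ev (cdl s hs * f) k ω'| ≤ _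
    rw [TR.ev_mul, TR.ev_mul, ev_cdl, ev_cdl, ← mul_sub, abs_mul, abs_of_pos (R.dl_pos s k), one_mul, dl_add,
      mul_comm (R.dl r k)]
    exact mul_le_mul_of_nonneg_left h1 (R.dl_pos s k).le
  · apply VV.dg_le_dg (TR.vec fun _ : Fin 1 => f) (TR.vec fun _ : Fin 1 => cdl s hs * f) _ _ (fun _ _ => True)
      Typ_true (fun _ => 1) (R.Sub_const zero_le_one)
    refine Eventually.of_forall fun k ω ω' a b e e' z q i => ?_
    have h1 : |TR.ev (cdl s hs * f) k ω - TR.ev (cdl s hs * f) k ω'| ≤ R.dl (r + s) k := q 0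
    rw [TR.ev_mul, TR.ev_mul, ev_cdl, ev_cdl, ← mul_sub, abs_mul, abs_of_pos (R.dl_pos s k), dl_add,
      mul_comm (R.dl r k)] at h1
    show |TR.ev f k ω - TR.ev f k ω'| ≤ _
    rw [one_mul]
    exact le_of_mul_le_mul_left h1 (R.dl_pos s k)

theorem Ag_iff_typ {r : ℝ} {f : TR R} : TR.Ag r f 0 ↔
    ∃ K : ℕ → ℝ, R.Sub K ∧ Typ (fun k ω => |TR.ev f k ω| ≤ K k * R.dl r k) := by
  constructor
  · rintro ⟨E, K, hE, hK, h⟩
    refine ⟨K, hK, hE.mono ?_⟩
    filter_upwards [h] with k hk ω hω e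
    have := hk ω hω e
    rwa [TR.ev_zero, sub_zero] at this
  · rintro ⟨K, hK, h⟩
    refine ⟨_, K, h, hK, Eventually.of_forall fun k ω _ e => ?_⟩
    rw [TR.ev_zero, sub_zero]
    exact e

theorem Ag.mul_dl {r s : ℝ} {f g : TR R} (hf : TR.Ag r f 0) (hg : TR.Ag s g 0) : TR.Ag (r + s) (f * g) 0 := by
  obtain ⟨E, K, hE, hK, h⟩ := hf
  obtain ⟨E', K', hE', hK', h'⟩ := hg
  refine ⟨fun k ω => E k ω ∧ E' k ω, fun k => K k * K' k, hE.and hE', hK.mul hK', ?_⟩
  filter_upwards [h, h', hK.1] with k a b c ω hω e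
  have h1 := a ω hω e.1
  have h2 := b ω hω e.2
  rw [TR.ev_zero, sub_zero] at h1 h2 ⊢
  rw [TR.ev_mul, abs_mul, dl_add]
  calc |TR.ev f k ω| * |TR.ev g k ω| ≤ (K k * R.dl r k) * (K' k * R.dl s k) :=
        mul_le_mul h1 h2 (abs_nonneg _) (mul_nonneg c (R.dl_pos r k).le)
    _ = _ := by ring

theorem Ag.mul_tame {r : ℝ} {f : TR R} (hf : TR.Ag r f 0) (g : TR R) : TR.Ag r (g * f) 0 := by
  have := TR.Ag.mul (TR.Ag.refl r g) hf
  rwa [mul_zero] at this

theorem Ag.sub_zero {r : ℝ} {f g : TR R} : TR.Ag r f g ↔ TR.Ag r (f - g) 0 := by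
  constructor
  · intro h
    have := h.sub (TR.Ag.refl r g)
    rwa [sub_self] at this
  · intro h
    have := TR.Ag.add h (TR.Ag.refl r g)
    rwa [sub_add_cancel, zero_add] at this

theorem Ag.zero_level (f : TR R) : TR.Ag 0 f 0 := by
  obtain ⟨K, hK, h⟩ := f.2
  refine ⟨fun _ _ => True, K, Typ_true, hK, ?_⟩
  filter_upwards [h] with k hk ω hω _
  rw [TR.ev_zero, _root_.sub_zero, dl_zero, mul_one]
  exact hk ω hω

section chg

variable {S : Sp} (Z : ∀ k, Setoid (S.F k).Ω) (e : ℝ) (he : 0 < e)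

theorem chgL_finsup_le {x : S.L} {y : (S.chg Z e he).L} (h : chgL Z e he x ≤ y) {x' : S.L} (hx : x' ≤ x) :
    chgL Z e he x' ≤ y := (chgL_mono Z e he hx).trans h

/-- functions of the new base -/
theorem chgL_BM {g : TR S} (hg : BM (trc Z e he g)) (r : ℝ) : chgL Z e he (TR.dg g r) = ⊥ := by
  have h1 := hg.dg (r / e)
  rw [trc_dg, mul_div_cancel₀ _ he.ne'] at h1
  exact h1

theorem chgL_add_le {x : (S.chg Z e he).L} {f g : TR S} {r : ℝ} (hf : chgL Z e he (TR.dg f r) ≤ x)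
    (hg : chgL Z e he (TR.dg g r) ≤ x) : chgL Z e he (TR.dg (f + g) r) ≤ x := by
  refine (chgL_mono Z e he (TR.add_dg_le f g r)).trans ?_
  rw [chgL_sup]
  exact sup_le hf hg

theorem chgL_mul_le {x : (S.chg Z e he).L} {f g : TR S} {r : ℝ} (hf : chgL Z e he (TR.dg f r) ≤ x)
    (hg : chgL Z e he (TR.dg g r) ≤ x) : chgL Z e he (TR.dg (f * g) r) ≤ x := by
  refine (chgL_mono Z e he (TR.mul_dg_le f g r)).trans ?_
  rw [chgL_sup]
  exact sup_le hf hg

theorem chgL_sub_le {x : (S.chg Z e he).L} {f g : TR S} {r : ℝ} (hf : chgL Z e he (TR.dg f r) ≤ x)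
    (hg : chgL Z e he (TR.dg g r) ≤ x) : chgL Z e he (TR.dg (f - g) r) ≤ x := by
  rw [sub_eq_add_neg]
  exact chgL_add_le Z e he hf ((chgL_mono Z e he (TR.neg_dg_le g r)).trans hg)

theorem chg_ag {r : ℝ} {f g : TR S} (h : TR.Ag (e * r) f g) : TR.Ag r (trc Z e he f) (trc Z e he g) := by
  obtain ⟨E, K, hE, hK, hh⟩ := h
  refine ⟨E, K, typ_chg Z e he hE, chg_sub Z e he hK, ?_⟩
  filter_upwards [hh] with k hk ω hω hEω
  rw [chg_dl]
  exact hk ω hω hEω

/-- division of a small function by `2 ^ (-r n)` -/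
def dv (f : TR S) (r : ℝ) (K : ℕ → ℝ) (hK : S.Sub K) : TR (S.chg Z e he) := zo Z e he f (fun _ _ => 0) r K hK

theorem dv_ev {f : TR S} {r : ℝ} {K : ℕ → ℝ} {hK : S.Sub K} {k : ℕ} {ω : (S.F k).Ω}
    (h : |f.1 k ω| ≤ K k * S.dl r k) : (dv Z e he f r K hK).1 k ω = f.1 k ω / S.dl r k := by
  have h1 := zo_ev Z e he (f := f) (g := fun _ _ => 0) (r := r) (K := K) (hK := hK) (k := k) (ω := ω)
    (by rw [sub_zero]; exact h)
  rw [sub_zero] at h1
  exact h1

theorem dv_dg {f : TR S} {r : ℝ} {K : ℕ → ℝ} (hK : S.Sub K) (h : Typ (S := S) (fun k ω => |f.1 k ω| ≤ K k * S.dl r k))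
    (u : ℝ) : TR.dg (dv Z e he f r K hK) u = chgL Z e he (TR.dg f (r + e * u)) := by
  apply zo_dg Z e he hK
  · refine h.mono (Eventually.of_forall fun k ω _ q => ?_)
    rw [sub_zero]
    exact q
  · exact Eventually.of_forall fun _ _ _ _ _ _ => rfl

/-- the relation with the old function -/
theorem dv_te {f : TR S} {r : ℝ} (hr : 0 ≤ r) {K : ℕ → ℝ} (hK : S.Sub K)
    (h : Typ (S := S) (fun k ω => |f.1 k ω| ≤ K k * S.dl r k)) :
    TR.Te (trc Z e he f) (cdl (r / e) (div_nonneg hr he.le) * dv Z e he f r K hK) := by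
  refine ⟨_, typ_chg Z e he h, Eventually.of_forall fun k ω _ q => ?_⟩
  rw [TR.ev_mul, ev_cdl, chg_dl]
  have h1 : TR.ev (dv Z e he f r K hK) k ω = f.1 k ω / S.dl r k := dv_ev Z e he q
  rw [h1, mul_div_cancel₀ _ he.ne', mul_div_cancel₀ _ (S.dl_pos r k).ne']
  rfl

end chg

end

end Pool.Agent.Helper68.ST2
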